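import Mathlib

/-!
Combinatorial part: graphs without large cliques in which the common non-neighbourhood of every
large independent set is independent.
-/

open Finset

namespace Pool.Agent.V8H97.CRG

variable {V : Type*} [DecidableEq V]

/-- pairwise adjacent -/
def Clq (adj : V → V → Prop) (Q : Finset V) : Prop := ∀ u ∈ Q, ∀ v ∈ Q, u ≠ v → adj u v

/-- pairwise non-adjacent -/
def Ind (adj : V → V → Prop) (T : Finset V) : Prop := ∀ u ∈ T, ∀ v ∈ T, u ≠ v → ¬ adj u v

/-- a Ramsey bound -/
def ram : ℕ → ℕ → ℕ
  | 0, _ => 0
  | k + 1, m => m * (1 + ram k m) 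

/-- no clique of size `k` and no independent set of size `m` -/
lemma ramsey (adj : V → V → Prop) (hs : ∀ u v, adj u v → adj v u) (m : ℕ) :
    ∀ (k : ℕ) (B : Finset V), (∀ Q ⊆ B, Q.card = k → ¬ Clq adj Q) →
      (∀ T ⊆ B, T.card = m → ¬ Ind adj T) → B.card ≤ ram k m := by
  classical
  intro k
  induction k with
  | zero =>
    intro B hQ _
    exact absurd (fun u hu => by simp at hu) (hQ ∅ (empty_subset _) rfl)
  | succ k ih =>
    intro B hQ hT
    -- a maximal independent set
    obtain ⟨T, hTmem, hTmax⟩ := (B.powerset.filter (fun T => Ind adj T)).exists_max_image card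
      ⟨∅, by
        rw [mem_filter]
        exact ⟨mem_powerset.2 (empty_subset _), fun u hu => by simp at hu⟩⟩
    rw [mem_filter, mem_powerset] at hTmem
    obtain ⟨hTB, hTI⟩ := hTmem
    have hcard : T.card < m := by
      by_contra hge
      push Not at hge
      obtain ⟨T', hT', hc⟩ := exists_subset_card_eq hge
      exact hT T' (hT'.trans hTB) hc fun u hu v hv => hTI u (hT' hu) v (hT' hv)
    have hcov : B ⊆ T.biUnion fun v => insert v (B.filter fun u => adj v u ∧ u ≠ v) := by
      intro u hu
      rw [mem_biUnion]
      by_cases huT : u ∈ T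
      · exact ⟨u, huT, mem_insert_self _ _⟩
      by_contra hcon
      push Not at hcon
      have hind : Ind adj (insert u T) := by
        intro a ha b hb hab
        rw [mem_insert] at ha hb
        rcases ha with rfl | ha <;> rcases hb with rfl | hb
        · exact absurd rfl hab
        · intro h
          exact hcon b hb (mem_insert_of_mem (mem_filter.2 ⟨hu, hs _ _ h, hab⟩))
        · intro h
          exact hcon a ha (mem_insert_of_mem (mem_filter.2 ⟨hu, h, fun e => hab e.symm⟩))
        · exact hTI a ha b hb hab
      have := hTmax (insert u T) (mem_filter.2 ⟨mem_powerset.2 (insert_subset hu hTB), hind⟩)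
      rw [card_insert_of_notMem huT] at this
      omega
    have hN : ∀ v ∈ T, (insert v (B.filter fun u => adj v u ∧ u ≠ v)).card ≤ 1 + ram k m := by
      intro v hv
      refine (card_insert_le _ _).trans ?_
      rw [add_comm]
      apply Nat.add_le_add_left
      apply ih
      · intro Q hQB hc hclq
        have hvQ : v ∉ Q := fun h => (mem_filter.1 (hQB h)).2.2 rfl
        refine hQ (insert v Q) ?_ (by rw [card_insert_of_notMem hvQ, hc]) ?_
        · refine insert_subset (hTB hv) (hQB.trans (filter_subset _ _))
        · intro a ha b hb hab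
          rw [mem_insert] at ha hb
          rcases ha with rfl | ha <;> rcases hb with rfl | hb
          · exact absurd rfl hab
          · exact (mem_filter.1 (hQB hb)).2.1
          · exact hs _ _ (mem_filter.1 (hQB ha)).2.1
          · exact hclq a ha b hb hab
      · intro T' hT' hc hi
        exact hT T' (hT'.trans (filter_subset _ _)) hc hi
    calc B.card ≤ _ := card_le_card hcov
      _ ≤ ∑ v ∈ T, (insert v (B.filter fun u => adj v u ∧ u ≠ v)).card := card_biUnion_le
      _ ≤ ∑ _v ∈ T, (1 + ram k m) := sum_le_sum hN
      _ = T.card * (1 + ram k m) := by rw [sum_const, smul_eq_mul]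
      _ ≤ m * (1 + ram k m) := Nat.mul_le_mul_right _ hcard.le
      _ = ram (k + 1) m := rfl

/-- the number of exceptional vertices: `q` the size of the sets wanted, `t` the threshold -/
def bd (t q : ℕ) : ℕ → ℕ
  | 0 => 0
  | k + 1 => ram (k + 1) (q + 1 + (bd t q k + k * q + k + 1) * t) + bd t q k

/-- **structure**: `B` is covered by a bounded set `Z` and fewer than `k` independent sets `C i`,
each with a subset `T i` of `q` vertices, all complete to each other and to `Z` -/
lemma structure_thm (adj : V → V → Prop) (hs : ∀ u v, adj u v → adj v u) (t q : ℕ)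
    (hirr : ∀ u, ¬ adj u u) :
    ∀ (k : ℕ) (B : Finset V), (∀ Q ⊆ B, Q.card = k → ¬ Clq adj Q) →
      (∀ T ⊆ B, t ≤ T.card → Ind adj T → ∀ i ∈ B, ∀ j ∈ B, adj i j →
        ∃ v ∈ T, adj i v ∨ adj j v) →
      ∃ (r : ℕ) (Z : Finset V) (C T : Fin r → Finset V), r ≤ k ∧ Z ⊆ B ∧ Z.card ≤ bd t q k ∧
        (∀ i, C i ⊆ B) ∧ (∀ u ∈ B, u ∈ Z ∨ ∃ i, u ∈ C i) ∧ (∀ i, Ind adj (C i)) ∧
        (∀ i, T i ⊆ C i) ∧ (∀ i, (T i).card = q) ∧
        (∀ i j, i ≠ j → ∀ u ∈ T i, ∀ v ∈ T j, adj u v) ∧
        (∀ i, ∀ u ∈ T i, ∀ z ∈ Z, adj u z) := by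
  classical
  intro k
  induction k with
  | zero =>
    intro B hQ _
    exact absurd (fun u hu => by simp at hu) (hQ ∅ (empty_subset _) rfl)
  | succ k ih =>
    intro B hQ hP
    obtain ⟨A, hA⟩ : ∃ A, A = bd t q k + k * q + k + 1 := ⟨_, rfl⟩
    obtain ⟨m, hm⟩ : ∃ m, m = q + 1 + A * t := ⟨_, rfl⟩
    by_cases hex : ∃ T ⊆ B, T.card = m ∧ Ind adj T
    · obtain ⟨T, hTB, hTm, hTI⟩ := hex
      obtain ⟨C, hC⟩ : ∃ C, C = B.filter (fun u => ∀ v ∈ T, ¬ adj u v) := ⟨_, rfl⟩
      have htm : t ≤ T.card := by
        have : 1 * t ≤ A * t := Nat.mul_le_mul_right _ (by omega)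
        rw [hTm, hm]
        omega
      -- vertices outside C miss few vertices of T
      have hmiss : ∀ u ∈ B, u ∉ C → (T.filter fun v => ¬ adj u v).card ≤ t := by
        intro u hu huC
        by_contra hgt
        push Not at hgt
        rw [hC, mem_filter] at huC
        push Not at huC
        obtain ⟨z, hz, huz⟩ := huC hu
        obtain ⟨v, hv, h⟩ := hP (T.filter fun v => ¬ adj u v) ((filter_subset _ _).trans hTB)
          hgt.le (fun a ha b hb => hTI a (mem_filter.1 ha).1 b (mem_filter.1 hb).1)
          u hu z (hTB hz) huz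
        rw [mem_filter] at hv
        rcases h with h | h
        · exact hv.2 h
        · by_cases hzv : z = v
          · subst hzv
            exact hirr _ h
          · exact hTI z hz v hv.1 hzv h
      obtain ⟨r, Z, C', T', hr, hZ, hZc, hC'B, hcov, hC'I, hT'C, hT'q, hTT, hTZ⟩ :=
        ih (B \ C) (by
          intro Q hQB hc hclq
          -- a common neighbour in T
          have hbad : (Q.biUnion fun u => T.filter fun v => ¬ adj u v).card < T.card := by
            calc (Q.biUnion fun u => T.filter fun v => ¬ adj u v).card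
                ≤ ∑ u ∈ Q, (T.filter fun v => ¬ adj u v).card := card_biUnion_le
              _ ≤ ∑ _u ∈ Q, t := sum_le_sum fun u hu =>
                  hmiss u (mem_sdiff.1 (hQB hu)).1 (mem_sdiff.1 (hQB hu)).2
              _ = k * t := by rw [sum_const, hc, smul_eq_mul]
              _ < T.card := by
                  have : k * t ≤ A * t := Nat.mul_le_mul_right _ (by omega)
                  rw [hTm, hm]
                  omega
          obtain ⟨v, hvT, hv⟩ := exists_mem_notMem_of_card_lt_card hbad
          have hvQ : ∀ u ∈ Q, adj u v := by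
            intro u hu
            by_contra hcon
            exact hv (mem_biUnion.2 ⟨u, hu, mem_filter.2 ⟨hvT, hcon⟩⟩)
          have hvn : v ∉ Q := fun h => hirr v (hvQ v h)
          refine hQ (insert v Q) ?_ (by rw [card_insert_of_notMem hvn, hc]) ?_
          · exact insert_subset (hTB hvT) (hQB.trans sdiff_subset)
          · intro a ha b hb hab
            rw [mem_insert] at ha hb
            rcases ha with rfl | ha <;> rcases hb with rfl | hb
            · exact absurd rfl hab
            · exact hs _ _ (hvQ b hb)
            · exact hvQ a ha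
            · exact hclq a ha b hb hab)
        (by
          intro T₁ hT₁ ht hi i hi' j hj hij
          exact hP T₁ (hT₁.trans sdiff_subset) ht hi i (mem_sdiff.1 hi').1 j (mem_sdiff.1 hj).1 hij)
      -- the vertices of T complete to everything chosen before
      obtain ⟨U, hU⟩ : ∃ U, U = Z ∪ Finset.univ.biUnion T' := ⟨_, rfl⟩
      have hUB : U ⊆ B \ C := by
        rw [hU]
        refine union_subset hZ ?_
        intro u hu
        obtain ⟨i, -, hi⟩ := mem_biUnion.1 hu
        exact hC'B i (hT'C i hi)
      have hUc : U.card ≤ bd t q k + k * q := by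
        rw [hU]
        refine (card_union_le _ _).trans (Nat.add_le_add hZc ?_)
        calc (Finset.univ.biUnion T').card ≤ ∑ i, (T' i).card := card_biUnion_le
          _ = ∑ _i : Fin r, q := sum_congr rfl fun i _ => hT'q i
          _ = r * q := by rw [sum_const, card_univ, Fintype.card_fin, smul_eq_mul]
          _ ≤ k * q := Nat.mul_le_mul_right _ hr
      have hbad : (U.biUnion fun u => T.filter fun v => ¬ adj u v).card ≤
          (bd t q k + k * q) * t := by
        calc (U.biUnion fun u => T.filter fun v => ¬ adj u v).card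
            ≤ ∑ u ∈ U, (T.filter fun v => ¬ adj u v).card := card_biUnion_le
          _ ≤ ∑ _u ∈ U, t := sum_le_sum fun u hu =>
              hmiss u (mem_sdiff.1 (hUB hu)).1 (mem_sdiff.1 (hUB hu)).2
          _ = U.card * t := by rw [sum_const, smul_eq_mul]
          _ ≤ (bd t q k + k * q) * t := Nat.mul_le_mul_right _ hUc
      have hgood : q ≤ (T \ U.biUnion fun u => T.filter fun v => ¬ adj u v).card := by
        have h1 := le_card_sdiff (U.biUnion fun u => T.filter fun v => ¬ adj u v) T
        have h2 : (bd t q k + k * q) * t ≤ A * t := Nat.mul_le_mul_right _ (by omega)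
        rw [hTm, hm] at h1
        omega
      obtain ⟨T₀, hT₀, hT₀q⟩ := exists_subset_card_eq hgood
      have hT₀adj : ∀ v ∈ T₀, ∀ u ∈ U, adj v u := by
        intro v hv u hu
        have h1 := mem_sdiff.1 (hT₀ hv)
        by_contra hcon
        exact h1.2 (mem_biUnion.2 ⟨u, hu, mem_filter.2 ⟨h1.1, fun h => hcon (hs _ _ h)⟩⟩)
      have hCB : C ⊆ B := by rw [hC]; exact filter_subset _ _
      have hCI : Ind adj C := by
        intro a ha b hb _ hadj
        rw [hC, mem_filter] at ha hb
        obtain ⟨v, hv, h⟩ := hP T hTB htm hTI a ha.1 b hb.1 hadj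
        rcases h with h | h
        · exact ha.2 v hv h
        · exact hb.2 v hv h
      have hT₀C : T₀ ⊆ C := by
        intro v hv
        have h1 := (mem_sdiff.1 (hT₀ hv)).1
        rw [hC, mem_filter]
        refine ⟨hTB h1, fun w hw => ?_⟩
        by_cases hvw : v = w
        · subst hvw; exact hirr _
        · exact hTI v h1 w hw hvw
      refine ⟨r + 1, Z, Fin.cons C C', Fin.cons T₀ T', by omega, hZ.trans sdiff_subset,
        hZc.trans (by rw [bd]; omega), ?_, ?_, ?_, ?_, ?_, ?_, ?_⟩
      · intro i
        refine Fin.cases ?_ (fun i => ?_) i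
        · exact hCB
        · exact (hC'B i).trans sdiff_subset
      · intro u hu
        by_cases huC : u ∈ C
        · exact Or.inr ⟨0, huC⟩
        · rcases hcov u (mem_sdiff.2 ⟨hu, huC⟩) with h | ⟨i, hi⟩
          · exact Or.inl h
          · exact Or.inr ⟨i.succ, hi⟩
      · intro i
        refine Fin.cases ?_ (fun i => ?_) i
        · exact hCI
        · exact hC'I i
      · intro i
        refine Fin.cases ?_ (fun i => ?_) i
        · exact hT₀C
        · exact hT'C i
      · intro i
        refine Fin.cases ?_ (fun i => ?_) i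
        · exact hT₀q
        · exact hT'q i
      · have hU' : ∀ (j : Fin r), ∀ v ∈ T' j, v ∈ U := by
          intro j v hv
          rw [hU]
          exact mem_union_right _ (mem_biUnion.2 ⟨j, mem_univ _, hv⟩)
        intro i j
        refine Fin.cases ?_ (fun i => ?_) i <;> refine Fin.cases ?_ (fun j => ?_) j
        · intro h
          exact absurd rfl h
        · intro _ u hu v hv
          exact hT₀adj u hu v (hU' j v hv)
        · intro _ u hu v hv
          exact hs _ _ (hT₀adj v hv u (hU' i u hu))
        · intro h u hu v hv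
          exact hTT i j (fun e => h (by rw [e])) u hu v hv
      · intro i
        refine Fin.cases ?_ (fun i => ?_) i
        · intro u hu z hz
          exact hT₀adj u hu z (by rw [hU]; exact mem_union_left _ hz)
        · exact hTZ i
    · push Not at hex
      have hB : B.card ≤ ram (k + 1) m := ramsey adj hs m (k + 1) B hQ
        (fun T hT hc hi => hex T hT hc hi)
      refine ⟨0, B, fun i => i.elim0, fun i => i.elim0, Nat.zero_le _, Subset.rfl, ?_,
        fun i => i.elim0, fun u hu => Or.inl hu, fun i => i.elim0, fun i => i.elim0,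
        fun i => i.elim0, fun i => i.elim0, fun i => i.elim0⟩
      rw [bd, ← hA, ← hm]
      omega

end Pool.Agent.V8H97.CRG
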