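import Mathlib
import Pool.Agent.V8H97.CRG.Comb

/-!
Structure theorem, general form: the vertices are covered by a bounded set and few sets `C i`,
each with a bounded set `F i` and an independent set `T i`, complete to each other.
-/

open Finset

namespace Pool.Agent.V8H97.CRG

variable {V : Type*} [DecidableEq V]

/-- the number of exceptional vertices -/
def bd2 (m₀ t q s : ℕ) : ℕ → ℕ
  | 0 => 0
  | k + 1 => ram (k + 1) (m₀ + q + 1 + (bd2 m₀ t q s k + k * q + k * s + k + 1) * t)
      + bd2 m₀ t q s k

lemma structure_thm2 (adj : V → V → Prop) (hs : ∀ u v, adj u v → adj v u)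
    (hirr : ∀ u, ¬ adj u u) (m₀ t q s : ℕ) (P : Finset V → Finset V → Prop) :
    ∀ (k : ℕ) (B : Finset V), (∀ Q ⊆ B, Q.card = k → ¬ Clq adj Q) →
      (∀ B' ⊆ B, ∀ T ⊆ B', m₀ ≤ T.card → Ind adj T → ∃ C F : Finset V, C ⊆ B' ∧ F ⊆ C ∧
        F.card ≤ s ∧ (∀ u ∈ B', u ∉ C → ∀ i ∈ F, adj u i) ∧
        (∀ u ∈ B', u ∉ C → ∀ M ⊆ T, (∀ v ∈ M, ¬ adj u v) → M.card ≤ t) ∧ P C F) →
      ∃ (r : ℕ) (Z : Finset V) (C T F : Fin r → Finset V), r ≤ k ∧ Z ⊆ B ∧
        Z.card ≤ bd2 m₀ t q s k ∧
        (∀ i, C i ⊆ B) ∧ (∀ u ∈ B, u ∈ Z ∨ ∃ i, u ∈ C i) ∧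
        (∀ i, F i ⊆ C i) ∧ (∀ i, (F i).card ≤ s) ∧ (∀ i, P (C i) (F i)) ∧
        (∀ i, T i ⊆ B) ∧ (∀ i, (T i).card = q) ∧
        (∀ i j, i ≠ j → ∀ u ∈ T i, ∀ v ∈ T j, adj u v) ∧
        (∀ i j, i ≠ j → ∀ u ∈ T i, ∀ v ∈ F j, adj u v) ∧
        (∀ i j, i ≠ j → ∀ u ∈ F i, ∀ v ∈ F j, adj u v) ∧
        (∀ i, ∀ u ∈ T i, ∀ z ∈ Z, adj u z) ∧
        (∀ i, ∀ u ∈ F i, ∀ z ∈ Z, adj u z) := by
  classical
  intro k
  induction k with
  | zero =>
    intro B hQ _
    exact absurd (fun u hu => by simp at hu) (hQ ∅ (empty_subset _) rfl)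
  | succ k ih =>
    intro B hQ hP
    obtain ⟨A, hA⟩ : ∃ A, A = bd2 m₀ t q s k + k * q + k * s + k + 1 := ⟨_, rfl⟩
    obtain ⟨m, hm⟩ : ∃ m, m = m₀ + q + 1 + A * t := ⟨_, rfl⟩
    by_cases hex : ∃ T ⊆ B, T.card = m ∧ Ind adj T
    · obtain ⟨T, hTB, hTm, hTI⟩ := hex
      obtain ⟨C, F, hCB, hFC, hFs, hFcomp, hmiss, hPCF⟩ := hP B Subset.rfl T hTB (by omega) hTI
      obtain ⟨r, Z, C', T', F', hr, hZ, hZc, hC'B, hcov, hF'C, hF's, hP', hT'B, hT'q, hTT, hTF,
        hFF, hTZ, hFZ⟩ :=
        ih (B \ C) (by
          intro Q hQB hc hclq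
          -- a common neighbour in T
          have hbad : (Q.biUnion fun u => T.filter fun v => ¬ adj u v).card < T.card := by
            calc (Q.biUnion fun u => T.filter fun v => ¬ adj u v).card
                ≤ ∑ u ∈ Q, (T.filter fun v => ¬ adj u v).card := card_biUnion_le
              _ ≤ ∑ _u ∈ Q, t := sum_le_sum fun u hu =>
                  hmiss u (mem_sdiff.1 (hQB hu)).1 (mem_sdiff.1 (hQB hu)).2 _
                    (filter_subset _ _) (fun v hv => (mem_filter.1 hv).2)
              _ = k * t := by rw [sum_const, hc, smul_eq_mul]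
              _ < T.card := by
                  have : k * t ≤ A * t := Nat.mul_le_mul_right _ (by omega)
                  rw [hTm, hm]
                  omega
          obtain ⟨v, hvT, hv⟩ := exists_mem_notMem_of_card_lt_card hbad
          have hvQ : ∀ u ∈ Q, adj u v := by
            intro u hu
            by_contra hcon
            exact hv (mem_biUnion.2 ⟨u, hu, mem_filter.2 ⟨hvT, hcon⟩⟩)
          have hvn : v ∉ Q := fun h => hirr v (hvQ v h)
          refine hQ (insert v Q) ?_ (by rw [card_insert_of_notMem hvn, hc]) ?_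
          · exact insert_subset (hTB hvT) (hQB.trans sdiff_subset)
          · intro a ha b hb hab
            rw [mem_insert] at ha hb
            rcases ha with rfl | ha <;> rcases hb with rfl | hb
            · exact absurd rfl hab
            · exact hs _ _ (hvQ b hb)
            · exact hvQ a ha
            · exact hclq a ha b hb hab)
        (by
          intro B' hB' T₁ hT₁ ht hi
          exact hP B' (hB'.trans sdiff_subset) T₁ hT₁ ht hi)
      -- the vertices of T complete to everything chosen before
      obtain ⟨U, hU⟩ : ∃ U, U = Z ∪ Finset.univ.biUnion T' ∪ Finset.univ.biUnion F' := ⟨_, rfl⟩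
      have hUB : U ⊆ B \ C := by
        rw [hU]
        refine union_subset (union_subset hZ ?_) ?_
        · intro u hu
          obtain ⟨i, -, hi⟩ := mem_biUnion.1 hu
          exact hT'B i hi
        · intro u hu
          obtain ⟨i, -, hi⟩ := mem_biUnion.1 hu
          exact hC'B i (hF'C i hi)
      have hUc : U.card ≤ bd2 m₀ t q s k + k * q + k * s := by
        rw [hU]
        refine (card_union_le _ _).trans (Nat.add_le_add ((card_union_le _ _).trans
          (Nat.add_le_add hZc ?_)) ?_)
        · calc (Finset.univ.biUnion T').card ≤ ∑ i, (T' i).card := card_biUnion_le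
            _ = ∑ _i : Fin r, q := sum_congr rfl fun i _ => hT'q i
            _ = r * q := by rw [sum_const, card_univ, Fintype.card_fin, smul_eq_mul]
            _ ≤ k * q := Nat.mul_le_mul_right _ hr
        · calc (Finset.univ.biUnion F').card ≤ ∑ i, (F' i).card := card_biUnion_le
            _ ≤ ∑ _i : Fin r, s := sum_le_sum fun i _ => hF's i
            _ = r * s := by rw [sum_const, card_univ, Fintype.card_fin, smul_eq_mul]
            _ ≤ k * s := Nat.mul_le_mul_right _ hr
      have hbad : (U.biUnion fun u => T.filter fun v => ¬ adj u v).card ≤ A * t := by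
        calc (U.biUnion fun u => T.filter fun v => ¬ adj u v).card
            ≤ ∑ u ∈ U, (T.filter fun v => ¬ adj u v).card := card_biUnion_le
          _ ≤ ∑ _u ∈ U, t := sum_le_sum fun u hu =>
              hmiss u (mem_sdiff.1 (hUB hu)).1 (mem_sdiff.1 (hUB hu)).2 _
                (filter_subset _ _) (fun v hv => (mem_filter.1 hv).2)
          _ = U.card * t := by rw [sum_const, smul_eq_mul]
          _ ≤ A * t := Nat.mul_le_mul_right _ (by omega)
      have hgood : q ≤ (T \ U.biUnion fun u => T.filter fun v => ¬ adj u v).card := by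
        have h1 := le_card_sdiff (U.biUnion fun u => T.filter fun v => ¬ adj u v) T
        rw [hTm, hm] at h1
        omega
      obtain ⟨T₀, hT₀, hT₀q⟩ := exists_subset_card_eq hgood
      have hT₀adj : ∀ v ∈ T₀, ∀ u ∈ U, adj v u := by
        intro v hv u hu
        have h1 := mem_sdiff.1 (hT₀ hv)
        by_contra hcon
        exact h1.2 (mem_biUnion.2 ⟨u, hu, mem_filter.2 ⟨h1.1, fun h => hcon (hs _ _ h)⟩⟩)
      have hUT : ∀ (j : Fin r), ∀ v ∈ T' j, v ∈ U := by
        intro j v hv
        rw [hU]
        exact mem_union_left _ (mem_union_right _ (mem_biUnion.2 ⟨j, mem_univ _, hv⟩))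
      have hUF : ∀ (j : Fin r), ∀ v ∈ F' j, v ∈ U := by
        intro j v hv
        rw [hU]
        exact mem_union_right _ (mem_biUnion.2 ⟨j, mem_univ _, hv⟩)
      have hUZ : ∀ v ∈ Z, v ∈ U := by
        intro v hv
        rw [hU]
        exact mem_union_left _ (mem_union_left _ hv)
      have hFU : ∀ u ∈ F, ∀ v ∈ U, adj u v := by
        intro u hu v hv
        have h1 := mem_sdiff.1 (hUB hv)
        exact hs _ _ (hFcomp v h1.1 h1.2 u hu)
      refine ⟨r + 1, Z, Fin.cons C C', Fin.cons T₀ T', Fin.cons F F', by omega,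
        hZ.trans sdiff_subset,
        hZc.trans (by rw [bd2]; omega), ?_, ?_, ?_, ?_, ?_, ?_, ?_, ?_, ?_, ?_, ?_, ?_⟩
      · intro i
        refine Fin.cases ?_ (fun i => ?_) i
        · exact hCB
        · exact (hC'B i).trans sdiff_subset
      · intro u hu
        by_cases huC : u ∈ C
        · exact Or.inr ⟨0, huC⟩
        · rcases hcov u (mem_sdiff.2 ⟨hu, huC⟩) with h | ⟨i, hi⟩
          · exact Or.inl h
          · exact Or.inr ⟨i.succ, hi⟩
      · intro i
        refine Fin.cases ?_ (fun i => ?_) i
        · exact hFC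
        · exact hF'C i
      · intro i
        refine Fin.cases ?_ (fun i => ?_) i
        · exact hFs
        · exact hF's i
      · intro i
        refine Fin.cases ?_ (fun i => ?_) i
        · exact hPCF
        · exact hP' i
      · intro i
        refine Fin.cases ?_ (fun i => ?_) i
        · exact (hT₀.trans sdiff_subset).trans hTB
        · exact (hT'B i).trans sdiff_subset
      · intro i
        refine Fin.cases ?_ (fun i => ?_) i
        · exact hT₀q
        · exact hT'q i
      · intro i j
        refine Fin.cases ?_ (fun i => ?_) i <;> refine Fin.cases ?_ (fun j => ?_) j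
        · intro h
          exact absurd rfl h
        · intro _ u hu v hv
          exact hT₀adj u hu v (hUT j v hv)
        · intro _ u hu v hv
          exact hs _ _ (hT₀adj v hv u (hUT i u hu))
        · intro h u hu v hv
          exact hTT i j (fun e => h (by rw [e])) u hu v hv
      · intro i j
        refine Fin.cases ?_ (fun i => ?_) i <;> refine Fin.cases ?_ (fun j => ?_) j
        · intro h
          exact absurd rfl h
        · intro _ u hu v hv
          exact hT₀adj u hu v (hUF j v hv)
        · intro _ u hu v hv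
          exact hs _ _ (hFU v hv u (hUT i u hu))
        · intro h u hu v hv
          exact hTF i j (fun e => h (by rw [e])) u hu v hv
      · intro i j
        refine Fin.cases ?_ (fun i => ?_) i <;> refine Fin.cases ?_ (fun j => ?_) j
        · intro h
          exact absurd rfl h
        · intro _ u hu v hv
          exact hFU u hu v (hUF j v hv)
        · intro _ u hu v hv
          exact hs _ _ (hFU v hv u (hUF i u hu))
        · intro h u hu v hv
          exact hFF i j (fun e => h (by rw [e])) u hu v hv
      · intro i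
        refine Fin.cases ?_ (fun i => ?_) i
        · intro u hu z hz
          exact hT₀adj u hu z (hUZ z hz)
        · exact hTZ i
      · intro i
        refine Fin.cases ?_ (fun i => ?_) i
        · intro u hu z hz
          exact hFU u hu z (hUZ z hz)
        · exact hFZ i
    · push Not at hex
      have hB : B.card ≤ ram (k + 1) m := ramsey adj hs m (k + 1) B hQ
        (fun T hT hc hi => hex T hT hc hi)
      refine ⟨0, B, fun i => i.elim0, fun i => i.elim0, fun i => i.elim0, Nat.zero_le _,
        Subset.rfl, ?_, fun i => i.elim0, fun u hu => Or.inl hu, fun i => i.elim0,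
        fun i => i.elim0, fun i => i.elim0, fun i => i.elim0, fun i => i.elim0,
        fun i => i.elim0, fun i => i.elim0, fun i => i.elim0, fun i => i.elim0,
        fun i => i.elim0⟩
      rw [bd2, ← hA, ← hm]
      omega

end Pool.Agent.V8H97.CRG
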