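import Mathlib

/-!
Minimisers of a quadratic form on the simplex with the smallest support.
-/

open Finset

namespace Pool.Agent.V8H97.CRG

variable {V : Type*} [Fintype V] [DecidableEq V]

/-- the quadratic form -/
def qf (M : V → V → ℝ) (x : V → ℝ) : ℝ := ∑ i, ∑ j, x i * x j * M i j

/-- the bilinear form -/
def bf (M : V → V → ℝ) (x y : V → ℝ) : ℝ := ∑ i, ∑ j, x i * y j * M i j

lemma bf_comm (M : V → V → ℝ) (hM : ∀ i j, M i j = M j i) (x y : V → ℝ) :
    bf M x y = bf M y x := by
  unfold bf
  rw [Finset.sum_comm]
  refine Finset.sum_congr rfl fun i _ => Finset.sum_congr rfl fun j _ => ?_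
  rw [hM j i]
  ring

lemma qf_add (M : V → V → ℝ) (hM : ∀ i j, M i j = M j i) (x y : V → ℝ) (t : ℝ) :
    qf M (fun i => x i + t * y i) = qf M x + 2 * t * bf M y x + t ^ 2 * qf M y := by
  have h1 : qf M (fun i => x i + t * y i)
      = qf M x + t * bf M x y + t * bf M y x + t ^ 2 * qf M y := by
    unfold qf bf
    simp only [Finset.mul_sum, ← Finset.sum_add_distrib]
    refine Finset.sum_congr rfl fun i _ => Finset.sum_congr rfl fun j _ => ?_
    ring
  rw [h1, bf_comm M hM x y]
  ring

lemma bf_eq (M : V → V → ℝ) (y x : V → ℝ) : bf M y x = ∑ i, y i * ∑ j, M i j * x j := by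
  unfold bf
  refine Finset.sum_congr rfl fun i _ => ?_
  rw [Finset.mul_sum]
  refine Finset.sum_congr rfl fun j _ => ?_
  ring

/-- the simplex -/
def Smp (x : V → ℝ) : Prop := (∀ i, 0 ≤ x i) ∧ ∑ i, x i = 1

lemma exists_min [Nonempty V] (M : V → V → ℝ) :
    ∃ x : V → ℝ, Smp x ∧ ∀ x', Smp x' → qf M x ≤ qf M x' := by
  have hc : IsCompact (stdSimplex ℝ V) := isCompact_stdSimplex ℝ V
  have hne : (stdSimplex ℝ V).Nonempty := ⟨_, single_mem_stdSimplex ℝ (Classical.arbitrary V)⟩
  have hcont : ContinuousOn (qf M) (stdSimplex ℝ V) := by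
    apply Continuous.continuousOn
    unfold qf
    fun_prop
  obtain ⟨x, hx, hmin⟩ := hc.exists_isMinOn hne hcont
  exact ⟨x, hx, fun x' hx' => hmin hx'⟩

lemma exists_core [Nonempty V] (M : V → V → ℝ) (hM : ∀ i j, M i j = M j i) :
    ∃ x : V → ℝ, Smp x ∧ (∀ x', Smp x' → qf M x ≤ qf M x') ∧
      (∀ y : V → ℝ, ∑ i, y i = 0 → (∀ i, x i = 0 → y i = 0) → y ≠ 0 → 0 < qf M y) ∧
      (∀ i, 0 < x i → ∑ j, M i j * x j = qf M x) := by
  classical
  -- a minimiser with the smallest support
  have hex : ∃ c : ℕ, ∃ x : V → ℝ, (Smp x ∧ ∀ x', Smp x' → qf M x ≤ qf M x') ∧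
      (univ.filter fun i => x i ≠ 0).card = c := by
    obtain ⟨x, hx⟩ := exists_min M
    exact ⟨_, x, hx, rfl⟩
  obtain ⟨x, ⟨hx, hmin⟩, hcard⟩ := Nat.find_spec hex
  have hleast : ∀ x' : V → ℝ, Smp x' → qf M x' ≤ qf M x →
      (univ.filter fun i => x i ≠ 0).card ≤ (univ.filter fun i => x' i ≠ 0).card := by
    intro x' hx' hle
    rw [hcard]
    exact Nat.find_min' hex ⟨x', ⟨hx', fun z hz => hle.trans (hmin z hz)⟩, rfl⟩
  refine ⟨x, hx, hmin, ?_, ?_⟩
  · -- second order condition
    have key : ∀ y : V → ℝ, ∑ i, y i = 0 → (∀ i, x i = 0 → y i = 0) → y ≠ 0 →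
        bf M y x ≤ 0 → 0 < qf M y := by
      intro y hy0 hys hyne hb
      by_contra hq
      push Not at hq
      -- some negative coordinate
      have hneg : ∃ i, y i < 0 := by
        by_contra hcon
        push Not at hcon
        apply hyne
        funext i
        exact (Finset.sum_eq_zero_iff_of_nonneg (fun i _ => hcon i)).1 hy0 i (mem_univ i)
      obtain ⟨i₀, hi₀⟩ := hneg
      obtain ⟨k, hk, hkmin⟩ := (univ.filter fun i => y i < 0).exists_min_image
        (fun i => x i / (- y i)) ⟨i₀, mem_filter.2 ⟨mem_univ _, hi₀⟩⟩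
      rw [mem_filter] at hk
      obtain ⟨t, ht⟩ : ∃ t, t = x k / (- y k) := ⟨_, rfl⟩
      have ht0 : 0 ≤ t := by
        rw [ht]
        exact div_nonneg (hx.1 k) (by linarith [hk.2])
      have hx' : Smp (fun i => x i + t * y i) := by
        refine ⟨fun i => ?_, ?_⟩
        · by_cases hi : y i < 0
          · have h1 := hkmin i (mem_filter.2 ⟨mem_univ _, hi⟩)
            rw [← ht] at h1
            have h2 : 0 < - y i := by linarith
            rw [le_div_iff₀ h2] at h1
            linarith
          · push Not at hi
            have := mul_nonneg ht0 hi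
            linarith [hx.1 i]
        · rw [Finset.sum_add_distrib, ← Finset.mul_sum, hy0, hx.2]
          ring
      have hle : qf M (fun i => x i + t * y i) ≤ qf M x := by
        rw [qf_add M hM]
        nlinarith [mul_nonneg ht0 (neg_nonneg.2 hb), mul_nonneg (sq_nonneg t) (neg_nonneg.2 hq)]
      have h3 := hleast _ hx' hle
      have hlt : (univ.filter fun i => x i + t * y i ≠ 0).card
          < (univ.filter fun i => x i ≠ 0).card := by
        apply Finset.card_lt_card
        rw [Finset.ssubset_iff_of_subset]
        · refine ⟨k, ?_, ?_⟩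
          · rw [mem_filter]
            refine ⟨mem_univ _, fun h => ?_⟩
            have := hys k h
            linarith [hk.2]
          · rw [mem_filter, not_and, not_not]
            intro _
            rw [ht]
            have : y k ≠ 0 := ne_of_lt hk.2
            field_simp
            ring
        · intro i hi
          rw [mem_filter] at hi ⊢
          refine ⟨mem_univ _, fun h => hi.2 ?_⟩
          rw [h, hys i h]
          ring
      omega
    intro y hy0 hys hyne
    rcases le_total (bf M y x) 0 with h | h
    · exact key y hy0 hys hyne h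
    · have h1 : qf M (fun i => - y i) = qf M y := by
        unfold qf
        refine Finset.sum_congr rfl fun i _ => Finset.sum_congr rfl fun j _ => ?_
        ring
      rw [← h1]
      refine key _ (by rw [Finset.sum_neg_distrib, hy0, neg_zero])
        (fun i hi => by rw [hys i hi, neg_zero]) (fun e => hyne ?_) ?_
      · funext i
        have := congrFun e i
        simpa using this
      · have : bf M (fun i => - y i) x = - bf M y x := by
          unfold bf
          rw [← Finset.sum_neg_distrib]
          refine Finset.sum_congr rfl fun i _ => ?_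
          rw [← Finset.sum_neg_distrib]
          refine Finset.sum_congr rfl fun j _ => ?_
          ring
        rw [this]
        linarith
  · -- first order condition
    have hge : ∀ i, qf M x ≤ ∑ j, M i j * x j := by
      intro i
      by_contra hlt
      push Not at hlt
      -- move towards the vertex i
      obtain ⟨y, hy⟩ : ∃ y : V → ℝ, y = fun j => (if j = i then (1 : ℝ) else 0) - x j := ⟨_, rfl⟩
      have hb : bf M y x = ∑ j, M i j * x j - qf M x := by
        rw [bf_eq, hy]
        simp only [sub_mul, Finset.sum_sub_distrib, ite_mul, one_mul, zero_mul]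
        rw [Finset.sum_ite_eq' univ i, if_pos (mem_univ i)]
        congr 1
        unfold qf
        refine Finset.sum_congr rfl fun a _ => ?_
        rw [Finset.mul_sum]
        refine Finset.sum_congr rfl fun b _ => ?_
        ring
      have hb0 : bf M y x < 0 := by rw [hb]; linarith
      obtain ⟨t, ht0, ht1, htq⟩ : ∃ t : ℝ, 0 < t ∧ t ≤ 1 ∧ 2 * bf M y x + t * qf M y < 0 := by
        by_cases hq : qf M y ≤ 0
        · exact ⟨1, one_pos, le_refl _, by linarith⟩
        · push Not at hq
          refine ⟨min 1 (- bf M y x / qf M y), lt_min one_pos (div_pos (by linarith) hq),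
            min_le_left _ _, ?_⟩
          have h1 : min 1 (- bf M y x / qf M y) * qf M y ≤ - bf M y x := by
            calc min 1 (- bf M y x / qf M y) * qf M y ≤ (- bf M y x / qf M y) * qf M y :=
                  mul_le_mul_of_nonneg_right (min_le_right _ _) hq.le
              _ = - bf M y x := by field_simp
          linarith
      have hx' : Smp (fun j => x j + t * y j) := by
        refine ⟨fun j => ?_, ?_⟩
        · rw [hy]
          simp only
          by_cases hj : j = i
          · rw [if_pos hj]
            have := hx.1 j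
            nlinarith
          · rw [if_neg hj]
            have := hx.1 j
            nlinarith
        · rw [Finset.sum_add_distrib, ← Finset.mul_sum, hx.2, hy]
          rw [Finset.sum_sub_distrib, Finset.sum_ite_eq' univ i, if_pos (mem_univ i), hx.2]
          ring
      have h2 := hmin _ hx'
      rw [qf_add M hM] at h2
      nlinarith
    have hsum : ∑ i, x i * (∑ j, M i j * x j - qf M x) = 0 := by
      simp only [mul_sub, Finset.sum_sub_distrib]
      rw [← Finset.sum_mul, hx.2, one_mul, ← bf_eq]
      unfold bf qf
      ring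
    intro i hi
    have h1 := (Finset.sum_eq_zero_iff_of_nonneg (fun i _ => mul_nonneg (hx.1 i)
      (sub_nonneg.2 (hge i)))).1 hsum i (mem_univ i)
    rcases mul_eq_zero.1 h1 with h | h
    · linarith
    · linarith

end Pool.Agent.V8H97.CRG
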