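import Mathlib
import Pool.Agent.V8H97.CRG.Core
import Pool.Agent.V8H97.CRG.Comb

/-!
The quadratic form `lam |z|^2 - z^T A z` of a graph which is positive on sum-zero vectors, `lam < 2`.
-/

open Finset

namespace Pool.Agent.V8H97.CRG

variable {V : Type*} [Fintype V] [DecidableEq V]

open Classical in
/-- the matrix `lam I - A` -/
noncomputable def gm (lam : ℝ) (adj : V → V → Prop) (i j : V) : ℝ :=
  (if i = j then lam else 0) - (if adj i j then 1 else 0)

/-- indicator vector -/
def ind (S : Finset V) (a : V) : ℝ := if a ∈ S then 1 else 0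

lemma gm_symm (lam : ℝ) (adj : V → V → Prop) (hs : ∀ u v, adj u v → adj v u) (i j : V) :
    gm lam adj i j = gm lam adj j i := by
  classical
  unfold gm
  congr 1
  · by_cases h : i = j
    · rw [if_pos h, if_pos h.symm]
    · rw [if_neg h, if_neg (fun e => h e.symm)]
  · by_cases h : adj i j
    · rw [if_pos h, if_pos (hs _ _ h)]
    · rw [if_neg h, if_neg (fun e => h (hs _ _ e))]

lemma sum_ind (S : Finset V) (f : V → ℝ) : ∑ a, ind S a * f a = ∑ a ∈ S, f a := by
  unfold ind
  simp only [ite_mul, one_mul, zero_mul]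
  rw [Finset.sum_ite_mem, Finset.univ_inter]

lemma sum_ind1 (S : Finset V) : ∑ a, ind S a = (S.card : ℝ) := by
  have := sum_ind S (fun _ => 1)
  simpa using this

lemma bf_ind (M : V → V → ℝ) (S : Finset V) (z : V → ℝ) :
    bf M (ind S) z = ∑ a ∈ S, ∑ j, M a j * z j := by
  rw [bf_eq, sum_ind]

/-- a row of the matrix -/
lemma row_gm (lam : ℝ) (adj : V → V → Prop) (a : V) (z : V → ℝ) (U : Finset V)
    (hU : ∀ j, z j ≠ 0 → (adj a j ↔ j ∈ U)) :
    ∑ j, gm lam adj a j * z j = lam * z a - ∑ j ∈ U, z j := by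
  classical
  have : ∀ j, gm lam adj a j * z j = (if j = a then lam * z j else 0) - (if j ∈ U then z j else 0) := by
    intro j
    unfold gm
    by_cases hz : z j = 0
    · rw [hz]; simp
    · have h := hU j hz
      by_cases hja : j = a
      · subst hja
        simp only [if_true]
        by_cases hU' : j ∈ U
        · rw [if_pos (h.2 hU'), if_pos hU']; ring
        · rw [if_neg (fun e => hU' (h.1 e)), if_neg hU']; ring
      · rw [if_neg (fun e => hja e.symm), if_neg hja]
        by_cases hU' : j ∈ U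
        · rw [if_pos (h.2 hU'), if_pos hU']; ring
        · rw [if_neg (fun e => hU' (h.1 e)), if_neg hU']; ring
  simp only [this, Finset.sum_sub_distrib]
  rw [Finset.sum_ite_eq' univ a, if_pos (mem_univ a), Finset.sum_ite_mem, Finset.univ_inter]

lemma qf_ind (lam : ℝ) (adj : V → V → Prop) (hirr : ∀ u, ¬ adj u u) (S : Finset V)
    (hS : Ind adj S) : qf (gm lam adj) (ind S) = lam * S.card := by
  have : qf (gm lam adj) (ind S) = bf (gm lam adj) (ind S) (ind S) := rfl
  rw [this, bf_ind]
  have h : ∀ a ∈ S, ∑ j, gm lam adj a j * ind S j = lam := by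
    intro a ha
    rw [row_gm lam adj a (ind S) ∅]
    · simp [ind, ha]
    · intro j hj
      have hjS : j ∈ S := by
        by_contra h
        exact hj (by simp [ind, h])
      simp only [notMem_empty, iff_false]
      by_cases haj : a = j
      · subst haj; exact hirr _
      · exact hS a ha j hjS haj
  rw [Finset.sum_congr rfl h, Finset.sum_const, nsmul_eq_mul]
  ring

/-- positivity on sum-zero vectors -/
def PD (lam : ℝ) (adj : V → V → Prop) (B : Finset V) : Prop :=
  ∀ z : V → ℝ, ∑ i, z i = 0 → (∀ i, z i ≠ 0 → i ∈ B) → z ≠ 0 → 0 < qf (gm lam adj) z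

/-- compensation of a vector on an independent set -/
lemma comp (lam : ℝ) (adj : V → V → Prop) (hs : ∀ u v, adj u v → adj v u)
    (hirr : ∀ u, ¬ adj u u) (B : Finset V) (hPD : PD lam adj B) (T : Finset V)
    (hne : T.Nonempty) (hTB : T ⊆ B) (hI : Ind adj T) (z : V → ℝ) (hzB : ∀ a, z a ≠ 0 → a ∈ B)
    (hzT : ∀ a ∈ T, z a = 0) (U : Finset V)
    (hU : ∀ v ∈ T, ∀ a, z a ≠ 0 → (adj v a ↔ a ∈ U)) (hz : z ≠ 0) :
    0 < qf (gm lam adj) z + lam * (∑ a, z a) ^ 2 / T.card + 2 * (∑ a, z a) * (∑ a ∈ U, z a) := by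
  classical
  obtain ⟨τ, hτ⟩ : ∃ τ : ℝ, τ = T.card := ⟨_, rfl⟩
  have hτ0 : 0 < τ := by rw [hτ]; exact_mod_cast hne.card_pos
  obtain ⟨σ, hσ⟩ : ∃ σ : ℝ, σ = ∑ a, z a := ⟨_, rfl⟩
  have h := hPD (fun i => z i + (-(σ / τ)) * ind T i)
    (by
      rw [Finset.sum_add_distrib, ← Finset.mul_sum, sum_ind1, ← hσ, ← hτ]
      field_simp
      ring)
    (by
      intro a ha
      by_cases h : a ∈ T
      · exact hTB h
      · apply hzB
        intro h0
        apply ha
        simp [h0, ind, h])
    (by
      intro e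
      apply hz
      funext a
      by_cases h : a ∈ T
      · exact hzT a h
      · have := congrFun e a
        simpa [ind, h] using this)
  rw [qf_add _ (gm_symm lam adj hs)] at h
  have h1 : bf (gm lam adj) (ind T) z = - (τ * ∑ a ∈ U, z a) := by
    rw [bf_ind]
    have : ∀ a ∈ T, ∑ j, gm lam adj a j * z j = - ∑ j ∈ U, z j := by
      intro a ha
      rw [row_gm lam adj a z U (hU a ha), hzT a ha]
      ring
    rw [Finset.sum_congr rfl this, Finset.sum_const, nsmul_eq_mul, ← hτ]
    ring
  rw [h1, qf_ind lam adj hirr T hI, ← hτ] at h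
  rw [← hσ, ← hτ]
  have e : qf (gm lam adj) z + 2 * -(σ / τ) * -(τ * ∑ a ∈ U, z a) + (-(σ / τ)) ^ 2 * (lam * τ)
      = qf (gm lam adj) z + lam * σ ^ 2 / τ + 2 * σ * ∑ a ∈ U, z a := by
    field_simp
    ring
  linarith [e ▸ h]

/-- the star test -/
lemma star_test (lam : ℝ) (adj : V → V → Prop) (hs : ∀ u v, adj u v → adj v u)
    (hirr : ∀ u, ¬ adj u u) (B : Finset V) (hPD : PD lam adj B) (d : ℝ) (hd : 0 < d)
    (hlam0 : 0 ≤ lam) (hlam : lam ≤ 2 - d) (t : ℕ) (ht : 9 ≤ d * t) (T : Finset V) (hTB : T ⊆ B)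
    (hI : Ind adj T) (u : V) (hu : u ∈ B) (N : Finset V) (hN : N ⊆ T) (hNu : ∀ v ∈ N, adj u v)
    (hN4 : 4 ≤ N.card) (M : Finset V) (hM : M ⊆ T) (hMu : ∀ v ∈ M, ¬ adj u v) : M.card < t := by
  classical
  by_contra hge
  push Not at hge
  have htr : (0 : ℝ) < t := by
    by_contra h
    push Not at h
    nlinarith
  have hMc : (t : ℝ) ≤ M.card := by exact_mod_cast hge
  obtain ⟨L, hL, hLc⟩ := exists_subset_card_eq hN4
  have huT : u ∉ T := by
    intro h
    have hne : L.Nonempty := by rw [← Finset.card_pos]; omega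
    obtain ⟨v, hv⟩ := hne
    have hav := hNu v (hL hv)
    by_cases huv : u = v
    · subst huv; exact hirr _ hav
    · exact hI u h v (hN (hL hv)) huv hav
  have hMne : M.Nonempty := by
    rw [← Finset.card_pos]
    have : 0 < t := by exact_mod_cast htr
    omega
  have hLI : Ind adj L := fun a ha b hb hab => hI a (hN (hL ha)) b (hN (hL hb)) hab
  have huL : u ∉ L := fun h => huT (hN (hL h))
  have h := comp lam adj hs hirr B hPD M hMne (hM.trans hTB)
    (fun a ha b hb hab => hI a (hM ha) b (hM hb) hab)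
    (fun a => ind L a + 2 * ind {u} a)
    (by
      intro a ha
      by_cases h1 : a ∈ L
      · exact hTB (hN (hL h1))
      · by_cases h2 : a = u
        · rw [h2]; exact hu
        · exact absurd (by simp [ind, h1, h2]) ha)
    (by
      intro a ha
      have h1 : a ∉ L := fun h => hMu a ha (hNu a (hL h))
      have h2 : a ≠ u := fun e => huT (e ▸ hM ha)
      simp [ind, h1, h2])
    ∅
    (by
      intro v hv a ha
      simp only [notMem_empty, iff_false]
      by_cases h1 : a ∈ L
      · by_cases hva : v = a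
        · subst hva; exact hirr _
        · exact hI v (hM hv) a (hN (hL h1)) hva
      · by_cases h2 : a = u
        · rw [h2]
          intro h3
          exact hMu v hv (hs _ _ h3)
        · exact absurd (by simp [ind, h1, h2]) ha)
    (by
      intro e
      have := congrFun e u
      simp [ind, huL] at this)
  have hsum : ∑ a, (ind L a + 2 * ind {u} a) = 6 := by
    rw [Finset.sum_add_distrib, ← Finset.mul_sum, sum_ind1, sum_ind1, hLc]
    simp
    norm_num
  rw [hsum, qf_add _ (gm_symm lam adj hs), qf_ind lam adj hirr L hLI,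
    qf_ind lam adj hirr {u} (by
      intro a ha b hb hab
      rw [mem_singleton] at ha hb
      exact absurd (ha.trans hb.symm) hab), bf_ind, sum_singleton,
    row_gm lam adj u (ind L) L (by
      intro j hj
      have : j ∈ L := by
        by_contra h; exact hj (by simp [ind, h])
      exact ⟨fun _ => this, fun _ => hNu j (hL this)⟩)] at h
  have h3 : ∑ j ∈ L, ind L j = 4 := by
    rw [Finset.sum_congr rfl (fun j hj => by rw [ind, if_pos hj])]
    simp [hLc]
  rw [h3, hLc, Finset.card_singleton] at h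
  simp only [ind, huL, if_false] at h
  have hMpos : (0 : ℝ) < M.card := lt_of_lt_of_le htr hMc
  have h4 : lam * 6 ^ 2 / M.card ≤ 8 * d := by
    rw [div_le_iff₀ hMpos]
    have : d * t ≤ d * M.card := mul_le_mul_of_nonneg_left hMc hd.le
    nlinarith
  norm_num at h h4
  linarith

end Pool.Agent.V8H97.CRG
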