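import Mathlib
import Pool.Agent.V8H97.CRG.Gap

/-!
The optimal vector on the almost non-neighbourhood of a large independent set has bounded support,
complete to the outside.
-/

open Finset

namespace Pool.Agent.V8H97.CRG

variable {V : Type*} [Fintype V] [DecidableEq V]

lemma qf_smul (M : V → V → ℝ) (c : ℝ) (x : V → ℝ) : qf M (fun i => c * x i) = c ^ 2 * qf M x := by
  unfold qf
  simp only [Finset.mul_sum]
  refine Finset.sum_congr rfl fun i _ => Finset.sum_congr rfl fun j _ => ?_
  ring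

lemma sum_sub (C : Finset V) (f : V → ℝ) (hf : ∀ a, f a ≠ 0 → a ∈ C) :
    ∑ i : {a // a ∈ C}, f i.1 = ∑ a, f a := by
  rw [Finset.sum_coe_sort C f]
  refine Finset.sum_subset (subset_univ C) fun a _ ha => ?_
  by_contra h
  exact ha (hf a h)

lemma qf_sub (M : V → V → ℝ) (C : Finset V) (x : V → ℝ) (hx : ∀ a, x a ≠ 0 → a ∈ C) :
    qf (fun i j : {a // a ∈ C} => M i.1 j.1) (fun i => x i.1) = qf M x := by
  unfold qf
  rw [← sum_sub C (fun i => ∑ j, x i * x j * M i j)]
  · refine Finset.sum_congr rfl fun i _ => ?_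
    rw [← sum_sub C (fun j => x i.1 * x j * M i.1 j)]
    intro a ha
    apply hx
    intro h
    apply ha
    simp [h]
  · intro a ha
    apply hx
    intro h
    apply ha
    simp [h]

/-- a minimiser on a set -/
lemma exists_opt (M : V → V → ℝ) (hM : ∀ i j, M i j = M j i) (C : Finset V) (hC : C.Nonempty) :
    ∃ y : V → ℝ, (∀ a, 0 ≤ y a) ∧ ∑ a, y a = 1 ∧ (∀ a, y a ≠ 0 → a ∈ C) ∧
      (∀ x : V → ℝ, (∀ a, 0 ≤ x a) → (∀ a, x a ≠ 0 → a ∈ C) →
        (∑ a, x a) ^ 2 * qf M y ≤ qf M x) ∧
      (∀ a, y a ≠ 0 → ∑ b, M a b * y b = qf M y) := by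
  classical
  haveI : Nonempty {a // a ∈ C} := hC.to_subtype
  obtain ⟨x', hx', hmin, -, h1⟩ := exists_core (fun i j : {a // a ∈ C} => M i.1 j.1)
    (fun i j => hM _ _)
  obtain ⟨y, hy⟩ : ∃ y : V → ℝ, y = fun a => if h : a ∈ C then x' ⟨a, h⟩ else 0 := ⟨_, rfl⟩
  have hyC : ∀ a, y a ≠ 0 → a ∈ C := by
    intro a ha
    by_contra h
    apply ha
    rw [hy]
    simp only [h, dif_neg, not_false_eq_true]
  have hyx : (fun i : {a // a ∈ C} => y i.1) = x' := by
    funext i
    rw [hy]
    simp only [i.2, dif_pos]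
  have hqy : qf M y = qf (fun i j : {a // a ∈ C} => M i.1 j.1) x' := by
    rw [← qf_sub M C y hyC, hyx]
  refine ⟨y, ?_, ?_, hyC, ?_, ?_⟩
  · intro a
    by_cases h : a ∈ C
    · have := congrFun hyx ⟨a, h⟩
      simp only at this
      rw [this]
      exact hx'.1 _
    · rw [hy]; simp only [h, dif_neg, not_false_eq_true]; exact le_rfl
  · rw [← sum_sub C y hyC]
    have : ∀ i : {a // a ∈ C}, y i.1 = x' i := fun i => congrFun hyx i
    rw [Finset.sum_congr rfl fun i _ => this i]
    exact hx'.2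
  · intro x hx0 hxC
    obtain ⟨σ, hσ⟩ : ∃ σ, σ = ∑ a, x a := ⟨_, rfl⟩
    have hσ0 : 0 ≤ σ := by rw [hσ]; exact Finset.sum_nonneg fun a _ => hx0 a
    rcases hσ0.eq_or_lt with h0 | hpos
    · have hz : ∀ a, x a = 0 := by
        intro a
        have := (Finset.sum_eq_zero_iff_of_nonneg (fun a _ => hx0 a)).1 (hσ.symm.trans h0.symm)
        exact this a (mem_univ a)
      rw [← hσ, ← h0]
      have : qf M x = 0 := by
        unfold qf
        simp [hz]
      rw [this]
      simp
    · have hs : Smp (fun i : {a // a ∈ C} => σ⁻¹ * x i.1) := by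
        refine ⟨fun i => mul_nonneg (inv_nonneg.2 hσ0) (hx0 _), ?_⟩
        rw [← Finset.mul_sum, sum_sub C x hxC, ← hσ]
        field_simp
      have h := hmin _ hs
      rw [qf_smul, qf_sub M C x hxC, ← hqy] at h
      rw [← hσ]
      have h2 : σ ^ 2 * qf M y ≤ σ ^ 2 * (σ⁻¹ ^ 2 * qf M x) :=
        mul_le_mul_of_nonneg_left h (by positivity)
      have h3 : σ ^ 2 * (σ⁻¹ ^ 2 * qf M x) = qf M x := by field_simp
      rw [h3] at h2
      exact h2
  · intro a ha
    have haC := hyC a ha
    have hxa : x' ⟨a, haC⟩ = y a := (congrFun hyx ⟨a, haC⟩).symm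
    have hpos : 0 < x' ⟨a, haC⟩ := lt_of_le_of_ne (hx'.1 _) (by rw [hxa]; exact ha.symm)
    have h := h1 ⟨a, haC⟩ hpos
    rw [← hqy] at h
    rw [← h, ← sum_sub C (fun b => M a b * y b)]
    · refine Finset.sum_congr rfl fun i _ => ?_
      have : y i.1 = x' i := congrFun hyx i
      rw [this]
    · intro b hb
      apply hyC
      intro h
      apply hb
      rw [h, mul_zero]

set_option maxHeartbeats 4000000 in
theorem core (lam : ℝ) (adj : V → V → Prop) (hs : ∀ u v, adj u v → adj v u)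
    (hirr : ∀ u, ¬ adj u u) (B : Finset V) (hPD : PD lam adj B) (d : ℝ) (hd : 0 < d)
    (hlam0 : 0 ≤ lam) (hlam : lam ≤ 2 - d) (t : ℕ) (ht : 9 ≤ d * t) (s : ℕ) (hsd : 4 ≤ d * s)
    (T : Finset V) (hTB : T ⊆ B) (hI : Ind adj T)
    (hT : 8 * (2 ^ s * s) ^ 2 + 4 * s + t + 1 ≤ T.card) (C : Finset V) (hCB : C ⊆ B)
    (hC : ∀ u ∈ B, u ∈ C ↔ ∀ N ⊆ T, (∀ v ∈ N, adj u v) → N.card ≤ 3) :
    ∃ F ⊆ C, F.card ≤ s ∧ (∀ u ∈ B, u ∉ C → ∀ i ∈ F, adj u i) ∧
      ∃ y : V → ℝ, (∀ a, 0 ≤ y a) ∧ (∀ a, y a ≠ 0 → a ∈ F) ∧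
        ((F = ∅ ∧ ∀ x : V → ℝ, (∀ a, 0 ≤ x a) → (∀ a, x a ≠ 0 → a ∈ C) →
            0 ≤ qf (gm lam adj) x) ∨
          (∑ a, y a = 1 ∧ ∀ x : V → ℝ, (∀ a, 0 ≤ x a) → (∀ a, x a ≠ 0 → a ∈ C) →
            (∑ a, x a) ^ 2 * qf (gm lam adj) y ≤ qf (gm lam adj) x)) := by
  classical
  have hs0 : 0 < s := by
    rcases Nat.eq_zero_or_pos s with h | h
    · rw [h] at hsd; norm_num at hsd
    · exact h
  have hTC : T ⊆ C := by
    intro v hv
    rw [hC v (hTB hv)]
    intro N hN hadj
    have : N = ∅ := by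
      rw [eq_empty_iff_forall_notMem]
      intro w hw
      by_cases hvw : v = w
      · subst hvw; exact hirr _ (hadj _ hw)
      · exact hI v hv w (hN hw) hvw (hadj w hw)
    rw [this]; simp
  have hTne : T.Nonempty := by rw [← Finset.card_pos]; omega
  obtain ⟨y, hy0, hy1, hyC, hymin, hyrow⟩ := exists_opt (gm lam adj) (gm_symm lam adj hs) C
    (hTne.mono hTC)
  by_cases hc : 0 ≤ qf (gm lam adj) y
  · refine ⟨∅, empty_subset _, by simp, fun _ _ _ i hi => absurd hi (notMem_empty i), fun _ => 0,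
      fun _ => le_rfl, fun a h => absurd rfl h, Or.inl ⟨rfl, fun x hx hxC => ?_⟩⟩
    exact (mul_nonneg (sq_nonneg _) hc).trans (hymin x hx hxC)
  push Not at hc
  obtain ⟨c, hcdef⟩ : ∃ c, c = - qf (gm lam adj) y := ⟨_, rfl⟩
  have hc0 : 0 < c := by rw [hcdef]; linarith
  have hqy : qf (gm lam adj) y = - c := by rw [hcdef]; ring
  obtain ⟨F, hF⟩ : ∃ F : Finset V, F = univ.filter fun a => y a ≠ 0 := ⟨_, rfl⟩
  have hFmem : ∀ a, a ∈ F ↔ y a ≠ 0 := by intro a; rw [hF, mem_filter]; simp
  have hFC : F ⊆ C := fun a ha => hyC a ((hFmem a).1 ha)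
  have hFpos : ∀ a ∈ F, 0 < y a := fun a ha => lt_of_le_of_ne (hy0 a) ((hFmem a).1 ha).symm
  have hFsum : ∑ a ∈ F, y a = 1 := by
    rw [← hy1]
    refine Finset.sum_subset (subset_univ F) fun a _ ha => ?_
    by_contra h
    exact ha ((hFmem a).2 h)
  have hrow : ∀ a ∈ F, ∑ j ∈ F.filter (fun j => adj a j), y j = lam * y a + c := by
    intro a ha
    have h := hyrow a ((hFmem a).1 ha)
    rw [row_gm lam adj a y (F.filter fun j => adj a j) (by
      intro j hj
      rw [mem_filter]
      exact ⟨fun h => ⟨(hFmem j).2 hj, h⟩, fun h => h.2⟩), hqy] at h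
    linarith
  -- connectedness
  have conn : ∀ S ⊆ F, S.Nonempty → S ≠ F → ∃ i ∈ S, ∃ j ∈ F, j ∉ S ∧ adj i j := by
    intro S hSF hSne hSF'
    by_contra hcon
    push Not at hcon
    obtain ⟨y1, hy1def⟩ : ∃ y1 : V → ℝ, y1 = fun a => if a ∈ S then y a else 0 := ⟨_, rfl⟩
    obtain ⟨y2, hy2def⟩ : ∃ y2 : V → ℝ, y2 = fun a => if a ∈ S then 0 else y a := ⟨_, rfl⟩
    have hsum : (fun a => y1 a + 1 * y2 a) = y := by
      funext a
      rw [hy1def, hy2def]
      by_cases h : a ∈ S
      · simp [h]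
      · simp [h]
    have hb : bf (gm lam adj) y2 y1 = 0 := by
      rw [bf_eq]
      refine Finset.sum_eq_zero fun a _ => ?_
      by_cases h2 : y2 a = 0
      · rw [h2, zero_mul]
      have haS : a ∉ S := by
        intro h
        apply h2
        rw [hy2def]; simp [h]
      have haF : a ∈ F := by
        rw [hFmem]
        intro h
        apply h2
        rw [hy2def]; simp [h]
      rw [row_gm lam adj a y1 ∅ (by
        intro j hj
        have hjS : j ∈ S := by
          by_contra h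
          apply hj
          rw [hy1def]; simp [h]
        simp only [notMem_empty, iff_false]
        intro h
        exact hcon j hjS a haF haS (hs _ _ h))]
      rw [hy1def]
      simp [haS]
    have hq : qf (gm lam adj) y = qf (gm lam adj) y1 + qf (gm lam adj) y2 := by
      conv_lhs => rw [← hsum]
      rw [qf_add _ (gm_symm lam adj hs), hb]
      ring
    have hm : ∑ a, y1 a + ∑ a, y2 a = 1 := by
      rw [← Finset.sum_add_distrib, ← hy1]
      refine Finset.sum_congr rfl fun a _ => ?_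
      have := congrFun hsum a
      simp only [one_mul] at this
      exact this
    have h10 : ∀ a, 0 ≤ y1 a := by
      intro a; rw [hy1def]; simp only; split_ifs
      · exact hy0 a
      · exact le_rfl
    have h20 : ∀ a, 0 ≤ y2 a := by
      intro a; rw [hy2def]; simp only; split_ifs
      · exact le_rfl
      · exact hy0 a
    have hm1 : 0 < ∑ a, y1 a := by
      obtain ⟨i, hi⟩ := hSne
      refine Finset.sum_pos' (fun a _ => h10 a) ⟨i, mem_univ _, ?_⟩
      rw [hy1def]; simp only [hi, if_true]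
      exact hFpos i (hSF hi)
    have hm2 : 0 < ∑ a, y2 a := by
      obtain ⟨j, hjF, hjS⟩ : ∃ j ∈ F, j ∉ S := by
        by_contra h
        push Not at h
        exact hSF' (subset_antisymm hSF h)
      refine Finset.sum_pos' (fun a _ => h20 a) ⟨j, mem_univ _, ?_⟩
      rw [hy2def]; simp only [hjS, if_false]
      exact hFpos j hjF
    have g1 := hymin y1 h10 (by
      intro a ha
      apply hyC
      intro h
      apply ha
      rw [hy1def]; simp [h])
    have g2 := hymin y2 h20 (by
      intro a ha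
      apply hyC
      intro h
      apply ha
      rw [hy2def]; simp [h])
    rw [hqy] at g1 g2 hq
    obtain ⟨m1, hm1d⟩ : ∃ m1, m1 = ∑ a, y1 a := ⟨_, rfl⟩
    obtain ⟨m2, hm2d⟩ : ∃ m2, m2 = ∑ a, y2 a := ⟨_, rfl⟩
    rw [← hm1d] at g1 hm1 hm
    rw [← hm2d] at g2 hm2 hm
    have : m1 ^ 2 + m2 ^ 2 = 1 - 2 * (m1 * m2) := by
      have : m2 = 1 - m1 := by linarith
      rw [this]; ring
    have h5 : 0 < c * (m1 * m2) := mul_pos hc0 (mul_pos hm1 hm2)
    nlinarith
  -- vertices of T far from a small set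
  obtain ⟨A, hA⟩ : ∃ A : ℕ, A = 2 ^ s * s := ⟨_, rfl⟩
  have hA1 : s ≤ A := by
    rw [hA]
    exact Nat.le_mul_of_pos_left _ (by positivity)
  rw [← hA] at hT
  have far : ∀ S ⊆ C, S.card ≤ s →
      8 * A ^ 2 + t + 1 ≤ (T.filter fun v => v ∉ S ∧ ∀ a ∈ S, ¬ adj a v).card := by
    intro S hSC hSs
    have hcov : T ⊆ (T.filter fun v => v ∉ S ∧ ∀ a ∈ S, ¬ adj a v) ∪
        S.biUnion (fun a => insert a (T.filter fun v => adj a v)) := by
      intro v hv
      rw [mem_union]
      by_cases h : v ∉ S ∧ ∀ a ∈ S, ¬ adj a v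
      · exact Or.inl (mem_filter.2 ⟨hv, h⟩)
      · right
        rw [mem_biUnion]
        by_cases hvS : v ∈ S
        · exact ⟨v, hvS, mem_insert_self _ _⟩
        · rw [not_and] at h
          have := h hvS
          push Not at this
          obtain ⟨a, ha, hav⟩ := this
          exact ⟨a, ha, mem_insert_of_mem (mem_filter.2 ⟨hv, hav⟩)⟩
    have h1 := (card_le_card hcov).trans (card_union_le _ _)
    have h2 : (S.biUnion (fun a => insert a (T.filter fun v => adj a v))).card ≤ 4 * s := by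
      calc (S.biUnion (fun a => insert a (T.filter fun v => adj a v))).card
          ≤ ∑ a ∈ S, (insert a (T.filter fun v => adj a v)).card := card_biUnion_le
        _ ≤ ∑ _a ∈ S, 4 := by
            refine sum_le_sum fun a ha => (card_insert_le _ _).trans ?_
            have := (hC a (hCB (hSC ha))).1 (hSC ha) (T.filter fun v => adj a v)
              (filter_subset _ _) (fun v hv => (mem_filter.1 hv).2)
            omega
        _ = S.card * 4 := by rw [sum_const, smul_eq_mul]
        _ ≤ 4 * s := by omega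
    omega
  have hA0 : (0 : ℝ) < A := by
    have : 0 < A := lt_of_lt_of_le hs0 hA1
    exact_mod_cast this
  have hlam2 : lam ≤ 2 := by linarith
  -- vectors on small sets
  have small : ∀ S ⊆ C, S.card ≤ s → ∀ z : V → ℝ, (∀ a, z a ≠ 0 → a ∈ S) → z ≠ 0 →
      0 < qf (gm lam adj) z + 2 * (∑ a, z a) ^ 2 / (8 * A ^ 2) := by
    intro S hSC hSs z hzS hz
    have hf := far S hSC hSs
    have h := comp lam adj hs hirr B hPD (T.filter fun v => v ∉ S ∧ ∀ a ∈ S, ¬ adj a v)
      (by rw [← Finset.card_pos]; omega) ((filter_subset _ _).trans hTB)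
      (fun a ha b hb hab => hI a (mem_filter.1 ha).1 b (mem_filter.1 hb).1 hab) z
      (fun a ha => hCB (hSC (hzS a ha)))
      (by
        intro a ha
        by_contra h
        exact (mem_filter.1 ha).2.1 (hzS a h))
      ∅
      (by
        intro v hv a ha
        simp only [notMem_empty, iff_false]
        intro h
        exact (mem_filter.1 hv).2.2 a (hzS a ha) (hs _ _ h)) hz
    rw [Finset.sum_empty, mul_zero, add_zero] at h
    refine h.trans_le ?_
    have hcard : (8 * A ^ 2 : ℝ) ≤ ((T.filter fun v => v ∉ S ∧ ∀ a ∈ S, ¬ adj a v).card : ℝ) := by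
      have : 8 * A ^ 2 ≤ (T.filter fun v => v ∉ S ∧ ∀ a ∈ S, ¬ adj a v).card := by omega
      exact_mod_cast this
    have : lam * (∑ a, z a) ^ 2 / ((T.filter fun v => v ∉ S ∧ ∀ a ∈ S, ¬ adj a v).card : ℝ) ≤
        2 * (∑ a, z a) ^ 2 / (8 * A ^ 2) := by
      apply div_le_div₀ (by positivity) (mul_le_mul_of_nonneg_right hlam2 (sq_nonneg _))
        (by positivity) hcard
    linarith
  -- the size of F
  have grow : ∀ k : ℕ, k + 1 ≤ F.card → ∃ S ⊆ F, S.card = k + 1 ∧
      qf (gm lam adj) (ind S) ≤ lam + k * (lam - 2) := by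
    intro k
    induction k with
    | zero =>
      intro hk
      obtain ⟨a, ha⟩ : F.Nonempty := by rw [← Finset.card_pos]; omega
      refine ⟨{a}, by simpa using ha, by simp, ?_⟩
      rw [qf_ind lam adj hirr {a} (by
        intro u hu v hv huv
        rw [mem_singleton] at hu hv
        exact absurd (hu.trans hv.symm) huv)]
      simp
    | succ k ih =>
      intro hk
      obtain ⟨S, hSF, hSc, hSq⟩ := ih (by omega)
      obtain ⟨i, hi, j, hjF, hjS, hij⟩ := conn S hSF (by rw [← Finset.card_pos]; omega)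
        (by intro e; rw [e] at hSc; omega)
      refine ⟨insert j S, insert_subset hjF hSF, by rw [card_insert_of_notMem hjS, hSc], ?_⟩
      have e : ind (insert j S) = fun a => ind S a + 1 * ind {j} a := by
        funext a
        unfold ind
        by_cases h1 : a = j
        · subst h1; simp [hjS]
        · simp [h1]
      rw [e, qf_add _ (gm_symm lam adj hs), qf_ind lam adj hirr {j} (by
        intro u hu v hv huv
        rw [mem_singleton] at hu hv
        exact absurd (hu.trans hv.symm) huv), bf_ind, sum_singleton,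
        row_gm lam adj j (ind S) (S.filter fun v => adj j v) (by
          intro v hv
          have hvS : v ∈ S := by
            by_contra h; exact hv (by simp [ind, h])
          rw [mem_filter]
          exact ⟨fun h => ⟨hvS, h⟩, fun h => h.2⟩)]
      have h1 : (1 : ℝ) ≤ ∑ v ∈ S.filter (fun v => adj j v), ind S v := by
        have : ∑ v ∈ S.filter (fun v => adj j v), ind S v
            = ∑ v ∈ S.filter (fun v => adj j v), (1 : ℝ) :=
          Finset.sum_congr rfl fun v hv => by rw [ind, if_pos (mem_filter.1 hv).1]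
        rw [this, Finset.sum_const, nsmul_eq_mul, mul_one]
        have : 0 < (S.filter (fun v => adj j v)).card :=
          Finset.card_pos.2 ⟨i, mem_filter.2 ⟨hi, hs _ _ hij⟩⟩
        exact_mod_cast this
      have h2 : ind S j = 0 := by simp [ind, hjS]
      rw [h2, Finset.card_singleton]
      push_cast
      linarith
  have hA1r : (s : ℝ) ≤ A := by exact_mod_cast hA1
  have hs1r : (1 : ℝ) ≤ s := by exact_mod_cast hs0
  have hFs : F.card ≤ s := by
    by_contra hlt
    push Not at hlt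
    obtain ⟨k, hk⟩ : ∃ k, s = k + 1 := ⟨s - 1, by omega⟩
    obtain ⟨S, hSF, hSc, hSq⟩ := grow k (by omega)
    have hSne : ind S ≠ 0 := by
      intro e
      obtain ⟨a, ha⟩ : S.Nonempty := by rw [← Finset.card_pos]; omega
      have := congrFun e a
      simp [ind, ha] at this
    have h := small S (hSF.trans hFC) (by omega) (ind S) (by
      intro a ha
      by_contra h; exact ha (by simp [ind, h])) hSne
    rw [sum_ind1, hSc, ← hk] at h
    have hks : (k : ℝ) = s - 1 := by rw [hk]; push_cast; ring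
    rw [hks] at hSq
    have h3 : 2 * (s : ℝ) ^ 2 / (8 * A ^ 2) ≤ 1 := by
      rw [div_le_one (by positivity)]
      nlinarith
    have h4 : ((s : ℝ) - 1) * (lam - 2) ≤ ((s : ℝ) - 1) * (-d) :=
      mul_le_mul_of_nonneg_left (by linarith) (by linarith)
    nlinarith
  have hyne : y ≠ 0 := by
    intro e
    rw [e] at hy1
    simp at hy1
  -- the value is small
  have hcs : c ≤ 1 / A := by
    have h := small F hFC hFs y (fun a ha => (hFmem a).2 ha) hyne
    rw [hy1, hqy] at h
    have h3 : (2 : ℝ) * 1 ^ 2 / (8 * A ^ 2) ≤ 1 / A := by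
      rw [div_le_div_iff₀ (by positivity) hA0]
      have : (1 : ℝ) ≤ A := by linarith
      nlinarith
    linarith
  -- lower bounds
  have low : ∀ k : ℕ, k + 1 ≤ F.card → ∃ S ⊆ F, S.card = k + 1 ∧
      ∀ i ∈ S, 1 / (2 ^ k * s) - c ≤ y i := by
    intro k
    induction k with
    | zero =>
      intro hk
      obtain ⟨a, ha, hay⟩ : ∃ a ∈ F, 1 / (s : ℝ) ≤ y a := by
        by_contra hcon
        push Not at hcon
        have hlt : ∑ a ∈ F, y a < ∑ _a ∈ F, 1 / (s : ℝ) :=
          Finset.sum_lt_sum_of_nonempty (by rw [← Finset.card_pos]; omega) hcon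
        rw [hFsum, Finset.sum_const, nsmul_eq_mul] at hlt
        have : (F.card : ℝ) * (1 / s) ≤ 1 := by
          rw [mul_one_div, div_le_one (by linarith)]
          exact_mod_cast hFs
        linarith
      refine ⟨{a}, by simpa using ha, by simp, ?_⟩
      intro i hi
      rw [mem_singleton] at hi
      rw [hi, pow_zero, one_mul]
      linarith
    | succ k ih =>
      intro hk
      obtain ⟨S, hSF, hSc, hSy⟩ := ih (by omega)
      obtain ⟨i, hi, j, hjF, hjS, hij⟩ := conn S hSF (by rw [← Finset.card_pos]; omega)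
        (by intro e; rw [e] at hSc; omega)
      have hpow : 1 / ((2 : ℝ) ^ (k + 1) * s) = 1 / (2 ^ k * s) / 2 := by
        rw [pow_succ]
        field_simp
      have hnn : (0 : ℝ) ≤ 1 / (2 ^ k * s) := by positivity
      refine ⟨insert j S, insert_subset hjF hSF, by rw [card_insert_of_notMem hjS, hSc], ?_⟩
      intro l hl
      rw [hpow]
      rcases mem_insert.1 hl with rfl | hl
      · have h1 : y i ≤ ∑ v ∈ F.filter (fun v => adj l v), y v :=
          Finset.single_le_sum (f := y) (fun v _ => hy0 v)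
            (mem_filter.2 ⟨hSF hi, hs _ _ hij⟩)
        rw [hrow l hjF] at h1
        have h2 := hSy i hi
        have h3 : lam * y l ≤ 2 * y l := mul_le_mul_of_nonneg_right hlam2 (hy0 l)
        linarith
      · have := hSy l hl
        linarith
  have hlow : ∀ i ∈ F, 1 / (A : ℝ) ≤ y i := by
    intro i hi
    have hFpos' : 0 < F.card := Finset.card_pos.2 ⟨i, hi⟩
    obtain ⟨k, hk⟩ : ∃ k, F.card = k + 1 := ⟨F.card - 1, by omega⟩
    obtain ⟨S, hSF, hSc, hSy⟩ := low k (by omega)
    have hSF' : S = F := eq_of_subset_of_card_le hSF (by omega)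
    rw [hSF'] at hSy
    have h1 := hSy i hi
    have h2 : 2 / (A : ℝ) ≤ 1 / (2 ^ k * s) := by
      rw [div_le_div_iff₀ hA0 (by positivity), hA]
      have hks : k + 1 ≤ s := by omega
      have h3 : (2 : ℝ) ^ (k + 1) ≤ 2 ^ s := pow_le_pow_right₀ (by norm_num) hks
      push_cast
      rw [pow_succ] at h3
      nlinarith
    have h4 : 2 / (A : ℝ) = 1 / A + 1 / A := by ring
    linarith
  refine ⟨F, hFC, hFs, ?_, y, hy0, fun a ha => (hFmem a).2 ha, Or.inr ⟨hy1, hymin⟩⟩
  -- completeness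
  intro u huB huC i hiF
  by_contra hui
  obtain ⟨N, hNT, hNu, hN4⟩ : ∃ N ⊆ T, (∀ v ∈ N, adj u v) ∧ 4 ≤ N.card := by
    rw [hC u huB] at huC
    push Not at huC
    obtain ⟨N, h1, h2, h3⟩ := huC
    exact ⟨N, h1, h2, h3⟩
  have hMt := star_test lam adj hs hirr B hPD d hd hlam0 hlam t ht T hTB hI u huB N hNT hNu hN4
    (T.filter fun v => ¬ adj u v) (filter_subset _ _) (fun v hv => (mem_filter.1 hv).2)
  have hf := far F hFC hFs
  obtain ⟨T2, hT2⟩ : ∃ T2 : Finset V,
      T2 = (T.filter fun v => v ∉ F ∧ ∀ a ∈ F, ¬ adj a v) \ (T.filter fun v => ¬ adj u v) :=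
    ⟨_, rfl⟩
  have hT2c : 8 * A ^ 2 + 1 ≤ T2.card := by
    have := le_card_sdiff (T.filter fun v => ¬ adj u v)
      (T.filter fun v => v ∉ F ∧ ∀ a ∈ F, ¬ adj a v)
    rw [← hT2] at this
    omega
  have hT2m : ∀ v ∈ T2, v ∈ T ∧ v ∉ F ∧ (∀ a ∈ F, ¬ adj a v) ∧ adj u v := by
    intro v hv
    rw [hT2, mem_sdiff, mem_filter, mem_filter] at hv
    refine ⟨hv.1.1, hv.1.2.1, hv.1.2.2, ?_⟩
    by_contra h
    exact hv.2 ⟨hv.1.1, h⟩
  have huF : u ∉ F := fun h => huC (hFC h)
  have huT : u ∉ T := fun h => huC (hTC h)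
  have hyu : y u = 0 := by
    by_contra h
    exact huF ((hFmem u).2 h)
  obtain ⟨a, hadef⟩ : ∃ a : ℝ, a = 1 / A / 4 := ⟨_, rfl⟩
  have ha0 : 0 < a := by rw [hadef]; positivity
  have hA1' : (1 : ℝ) ≤ A := by linarith
  have hκ1 : 1 / (A : ℝ) ≤ 1 := by rw [div_le_one hA0]; exact hA1'
  have h := comp lam adj hs hirr B hPD T2 (by rw [← Finset.card_pos]; omega)
    (fun v hv => hTB (hT2m v hv).1)
    (fun v hv w hw hvw => hI v (hT2m v hv).1 w (hT2m w hw).1 hvw)
    (fun b => y b + (-a) * ind {u} b)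
    (by
      intro b hb
      by_cases h1 : b = u
      · rw [h1]; exact huB
      · apply hCB
        apply hyC
        intro h2
        exact hb (by simp [ind, h1, h2]))
    (by
      intro v hv
      have h1 : v ≠ u := fun e => huT (e ▸ (hT2m v hv).1)
      have h2 : y v = 0 := by
        by_contra h
        exact (hT2m v hv).2.1 ((hFmem v).2 h)
      simp [ind, h1, h2])
    {u}
    (by
      intro v hv b hb
      rw [mem_singleton]
      by_cases h1 : b = u
      · exact ⟨fun _ => h1, fun _ => h1 ▸ hs _ _ (hT2m v hv).2.2.2⟩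
      · have h2 : b ∈ F := by
          rw [hFmem]
          intro h2
          exact hb (by simp [ind, h1, h2])
        exact ⟨fun h3 => absurd (hs _ _ h3) ((hT2m v hv).2.2.1 b h2), fun h3 => absurd h3 h1⟩)
    (by
      intro e
      have := congrFun e u
      simp [ind, hyu] at this
      exact absurd this ha0.ne')
  have hsum : ∑ b, (y b + (-a) * ind {u} b) = 1 - a := by
    rw [Finset.sum_add_distrib, ← Finset.mul_sum, sum_ind1, hy1]
    simp
    ring
  rw [hsum, qf_add _ (gm_symm lam adj hs), qf_ind lam adj hirr {u} (by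
    intro p hp q hq hpq
    rw [mem_singleton] at hp hq
    exact absurd (hp.trans hq.symm) hpq), bf_ind, sum_singleton,
    row_gm lam adj u y (F.filter fun j => adj u j) (by
      intro j hj
      rw [mem_filter]
      exact ⟨fun h => ⟨(hFmem j).2 hj, h⟩, fun h => h.2⟩), hqy, Finset.card_singleton,
    sum_singleton, hyu] at h
  have hyN : ∑ j ∈ F.filter (fun j => adj u j), y j ≤ 1 - 1 / A := by
    have h1 : ∑ j ∈ F.filter (fun j => adj u j), y j + y i ≤ ∑ j ∈ F, y j := by
      rw [← Finset.sum_filter_add_sum_filter_not F (fun j => adj u j)]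
      have : y i ≤ ∑ j ∈ F.filter (fun j => ¬ adj u j), y j :=
        Finset.single_le_sum (f := y) (fun v _ => hy0 v) (mem_filter.2 ⟨hiF, hui⟩)
      linarith
    rw [hFsum] at h1
    linarith [hlow i hiF]
  have hτ : (8 * A ^ 2 : ℝ) ≤ T2.card := by
    have : 8 * A ^ 2 ≤ T2.card := by omega
    exact_mod_cast this
  have ha1 : a ≤ 1 := by rw [hadef]; linarith
  have h5 : lam * (1 - a) ^ 2 / T2.card ≤ 2 / (8 * A ^ 2) := by
    apply div_le_div₀ (by norm_num) _ (by positivity) hτ
    have : (1 - a) ^ 2 ≤ 1 := by nlinarith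
    nlinarith [sq_nonneg (1 - a)]
  have h6 : (2 : ℝ) / (8 * A ^ 2) = 4 * a ^ 2 := by
    rw [hadef]
    field_simp
    norm_num
  have h7 : 1 / (A : ℝ) = 4 * a := by rw [hadef]; ring
  rw [h7] at hyN
  simp only [ind, mem_singleton, if_true, mul_zero, zero_sub, Nat.cast_one, mul_one, zero_add] at h
  obtain ⟨S, hS⟩ : ∃ S, S = ∑ j ∈ F.filter (fun j => adj u j), y j := ⟨_, rfl⟩
  rw [← hS] at h hyN
  have h8 : a * S ≤ a * (1 - 4 * a) := mul_le_mul_of_nonneg_left hyN ha0.le
  have h9 : lam * a ^ 2 ≤ 2 * a ^ 2 := mul_le_mul_of_nonneg_right hlam2 (sq_nonneg a)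
  nlinarith

end Pool.Agent.V8H97.CRG
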