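import Mathlib
import Pool.Agent.V8H97.CRG.Core
import Pool.Agent.V8H97.CRG.Comb

/-!
The reduction of a coloured regularity graph to one of bounded order, for `1/3 < p ≤ 1/2`.
-/

open Finset

namespace Pool.Agent.V8H97.CRG

/-- entries of the matrix `M_K(p)`; edge colours: 0 white, 1 gray, 2 black -/
noncomputable def mat {V : Type*} [DecidableEq V] (vb : V → Bool) (ec : V → V → Fin 3) (p : ℝ)
    (i j : V) : ℝ :=
  if i = j then (if vb i then 1 - p else p)
  else (if ec i j = 0 then p else if ec i j = 2 then 1 - p else 0)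

/-- coloured homomorphisms -/
def Hom {n : ℕ} (H : SimpleGraph (Fin n)) {V : Type*} (vb : V → Bool) (ec : V → V → Fin 3) :
    Prop :=
  ∃ φ : Fin n → V, ∀ u v : Fin n, u ≠ v →
    (φ u = φ v → (H.Adj u v → vb (φ u) = true) ∧ (¬ H.Adj u v → vb (φ u) = false)) ∧
    (φ u ≠ φ v → (H.Adj u v → ec (φ u) (φ v) ≠ 0) ∧ (¬ H.Adj u v → ec (φ u) (φ v) ≠ 2))

section
variable {V : Type*} [Fintype V] [DecidableEq V]

lemma mat_symm (vb : V → Bool) (ec : V → V → Fin 3) (hec : ∀ i j, ec i j = ec j i) (p : ℝ)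
    (i j : V) : mat vb ec p i j = mat vb ec p j i := by
  unfold mat
  by_cases h : i = j
  · subst h; rfl
  · rw [if_neg h, if_neg (show ¬ j = i from fun e => h e.symm), hec i j]

lemma mat_nonneg (vb : V → Bool) (ec : V → V → Fin 3) (p : ℝ) (h0 : 0 ≤ p) (h1 : p ≤ 1)
    (i j : V) : 0 ≤ mat vb ec p i j := by
  unfold mat
  split_ifs <;> linarith

lemma qf_eq (M : V → V → ℝ) (y : V → ℝ) : qf M y = ∑ i, y i * ∑ j, M i j * y j := by
  rw [← bf_eq]
  rfl

/-- second order condition for two vertices -/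
lemma pair_ineq (M : V → V → ℝ) (hM : ∀ i j, M i j = M j i) (x : V → ℝ)
    (h2 : ∀ y : V → ℝ, ∑ i, y i = 0 → (∀ i, x i = 0 → y i = 0) → y ≠ 0 → 0 < qf M y)
    (i j : V) (hij : i ≠ j) (hi : x i ≠ 0) (hj : x j ≠ 0) :
    2 * M i j < M i i + M j j := by
  obtain ⟨y, hy⟩ : ∃ y : V → ℝ, y = fun a => (if a = i then (1 : ℝ) else 0) -
    (if a = j then (1 : ℝ) else 0) := ⟨_, rfl⟩
  have h := h2 y
    (by rw [hy]; simp [Finset.sum_sub_distrib])
    (by
      intro a ha
      have h1 : a ≠ i := fun e => hi (e ▸ ha)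
      have h3 : a ≠ j := fun e => hj (e ▸ ha)
      rw [hy]; simp [h1, h3])
    (by
      intro e
      have := congrFun e i
      rw [hy] at this
      simp [hij] at this)
  have e1 : ∀ a, ∑ b, M a b * y b = M a i - M a j := by
    intro a
    rw [hy]
    simp [mul_sub, Finset.sum_sub_distrib]
  rw [qf_eq] at h
  simp only [e1] at h
  have e2 : ∑ a, y a * (M a i - M a j) = (M i i - M i j) - (M j i - M j j) := by
    rw [hy]
    simp [sub_mul, Finset.sum_sub_distrib]
  rw [e2, hM j i] at h
  linarith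

/-- structure of the support of a core: no black edges -/
lemma no_black (vb : V → Bool) (ec : V → V → Fin 3) (hec : ∀ i j, ec i j = ec j i) (p : ℝ)
    (hp : p ≤ 1 / 2) (x : V → ℝ)
    (h2 : ∀ y : V → ℝ, ∑ i, y i = 0 → (∀ i, x i = 0 → y i = 0) → y ≠ 0 →
      0 < qf (mat vb ec p) y)
    (i j : V) (hij : i ≠ j) (hi : x i ≠ 0) (hj : x j ≠ 0) : ec i j ≠ 2 := by
  intro h
  have h1 := pair_ineq (mat vb ec p) (mat_symm vb ec hec p) x h2 i j hij hi hj
  have e1 : mat vb ec p i j = 1 - p := by
    unfold mat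
    rw [if_neg hij, h, if_neg (by decide), if_pos rfl]
  have e2 : ∀ a, mat vb ec p a a ≤ 1 - p := by
    intro a
    unfold mat
    rw [if_pos rfl]
    split_ifs <;> linarith
  have := e2 i
  have := e2 j
  linarith

/-- white vertices of a core are joined by gray edges to everything -/
lemma white_gray (vb : V → Bool) (ec : V → V → Fin 3) (hec : ∀ i j, ec i j = ec j i) (p : ℝ)
    (hp0 : 0 < p) (hp : p ≤ 1 / 2) (x : V → ℝ) (hx : Smp x)
    (h2 : ∀ y : V → ℝ, ∑ i, y i = 0 → (∀ i, x i = 0 → y i = 0) → y ≠ 0 →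
      0 < qf (mat vb ec p) y)
    (h1 : ∀ i, 0 < x i → ∑ j, mat vb ec p i j * x j = qf (mat vb ec p) x)
    (i j : V) (hij : i ≠ j) (hi : x i ≠ 0) (hj : x j ≠ 0) (hvi : vb i = false) :
    ec i j = 1 := by
  classical
  obtain ⟨M, hMdef⟩ : ∃ M, M = mat vb ec p := ⟨_, rfl⟩
  have hMs : ∀ a b, M a b = M b a := by rw [hMdef]; exact mat_symm vb ec hec p
  have hM0 : ∀ a b, 0 ≤ M a b := by
    rw [hMdef]; exact mat_nonneg vb ec p hp0.le (by linarith)
  rw [← hMdef] at h2 h1
  have hx0 : ∀ a, x a ≠ 0 → 0 < x a := fun a ha => lt_of_le_of_ne (hx.1 a) (Ne.symm ha)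
  have hnb : ∀ a b, a ≠ b → x a ≠ 0 → x b ≠ 0 → ec a b ≠ 2 := by
    intro a b hab ha hb
    exact no_black vb ec hec p hp x (by rw [← hMdef]; exact h2) a b hab ha hb
  by_contra hne
  have hec0 : ec i j = 0 := by
    have h3 := hnb i j hij hi hj
    have : ∀ c : Fin 3, c ≠ 1 → c ≠ 2 → c = 0 := by decide
    exact this _ hne h3
  obtain ⟨J, hJ⟩ : ∃ J : Finset V, J = univ.filter fun a => x a ≠ 0 ∧ a ≠ i ∧ ec i a = 0 :=
    ⟨_, rfl⟩
  obtain ⟨z, hz⟩ : ∃ z : V → ℝ, z = fun a => if a ∈ J then x a else 0 := ⟨_, rfl⟩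
  obtain ⟨X, hX⟩ : ∃ X : ℝ, X = ∑ a, z a := ⟨_, rfl⟩
  have hjJ : j ∈ J := by
    rw [hJ, mem_filter]
    exact ⟨mem_univ _, hj, fun e => hij e.symm, hec0⟩
  have hz0 : ∀ a, 0 ≤ z a := by
    intro a; rw [hz]; simp only; split_ifs
    · exact hx.1 a
    · exact le_rfl
  have hzx : ∀ a, z a ≤ x a := by
    intro a; rw [hz]; simp only; split_ifs
    · exact le_rfl
    · exact hx.1 a
  have hXpos : 0 < X := by
    rw [hX]
    refine Finset.sum_pos' (fun a _ => hz0 a) ⟨j, mem_univ _, ?_⟩
    rw [hz]; simp only [hjJ, if_true]; exact hx0 j hj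
  have hiJ : i ∉ J := by
    rw [hJ, mem_filter]
    exact fun h => h.2.2.1 rfl
  have hzi : z i = 0 := by rw [hz]; simp only [hiJ, if_false]
  -- the row of i
  have hMi : ∀ a, M i a * z a = p * z a := by
    intro a
    by_cases ha : a ∈ J
    · have h3 := ha
      rw [hJ, mem_filter] at h3
      have : M i a = p := by
        rw [hMdef]; unfold mat
        rw [if_neg (fun e => h3.2.2.1 e.symm), if_pos h3.2.2.2]
      rw [this]
    · have : z a = 0 := by rw [hz]; simp only [ha, if_false]
      rw [this]; ring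
  have hMii : M i i = p := by
    rw [hMdef]; unfold mat
    rw [if_pos rfl, hvi]; simp
  have hrow : ∑ a, M i a * x a = p * x i + p * X := by
    have : ∀ a, M i a * x a = (if a = i then p * x i else 0) + p * z a := by
      intro a
      by_cases hai : a = i
      · subst hai
        rw [if_pos rfl, hMii, hzi]; ring
      · rw [if_neg hai, zero_add]
        by_cases ha : a ∈ J
        · rw [← hMi a]
          have : z a = x a := by rw [hz]; simp only [ha, if_true]
          rw [this]
        · have hza : z a = 0 := by rw [hz]; simp only [ha, if_false]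
          rw [hza, mul_zero]
          by_cases hxa : x a = 0
          · rw [hxa, mul_zero]
          · have h3 : ec i a ≠ 0 := by
              intro h4
              exact ha (by rw [hJ, mem_filter]; exact ⟨mem_univ _, hxa, hai, h4⟩)
            have h4 := hnb i a (fun e => hai e.symm) hi hxa
            have : M i a = 0 := by
              rw [hMdef]; unfold mat
              rw [if_neg (fun e => hai e.symm), if_neg h3, if_neg h4]
            rw [this, zero_mul]
    simp only [this, Finset.sum_add_distrib]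
    rw [Finset.sum_ite_eq' univ i, if_pos (mem_univ i), ← Finset.mul_sum, ← hX]
  have hv : qf M x = p * x i + p * X := by rw [← h1 i (hx0 i hi), hrow]
  -- second order condition
  obtain ⟨y, hy⟩ : ∃ y : V → ℝ, y = fun a => X * (if a = i then (1 : ℝ) else 0) - z a := ⟨_, rfl⟩
  have hq := h2 y
    (by
      rw [hy]
      rw [Finset.sum_sub_distrib, ← Finset.mul_sum, Finset.sum_ite_eq' univ i,
        if_pos (mem_univ i), ← hX]
      ring)
    (by
      intro a ha
      have h3 : a ≠ i := fun e => hi (e ▸ ha)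
      have h4 : z a = 0 := le_antisymm ((hzx a).trans ha.le) (hz0 a)
      rw [hy]; simp [h3, h4])
    (by
      intro e
      have := congrFun e i
      rw [hy] at this
      simp [hzi] at this
      linarith)
  have hqy : qf M y = qf M z - p * X ^ 2 := by
    have e1 : ∀ a, ∑ b, M a b * y b = X * M a i - ∑ b, M a b * z b := by
      intro a
      rw [hy]
      simp only [mul_sub, Finset.sum_sub_distrib]
      congr 1
      have : ∀ b, M a b * (X * if b = i then (1 : ℝ) else 0) = if b = i then X * M a b else 0 := by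
        intro b; split_ifs <;> ring
      simp only [this]
      rw [Finset.sum_ite_eq' univ i, if_pos (mem_univ i)]
    rw [qf_eq]
    simp only [e1]
    have e2 : ∀ a, y a * (X * M a i - ∑ b, M a b * z b)
        = (if a = i then X * (X * M a i - ∑ b, M a b * z b) else 0)
          - (X * (M i a * z a) - z a * ∑ b, M a b * z b) := by
      intro a
      rw [hy]
      simp only
      rw [hMs i a]
      split_ifs <;> ring
    simp only [e2, Finset.sum_sub_distrib]
    rw [Finset.sum_ite_eq' univ i, if_pos (mem_univ i), ← qf_eq, ← Finset.mul_sum]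
    simp only [hMi]
    rw [← Finset.mul_sum, ← hX, hMii]
    ring
  -- first order condition on J
  have hJsum : p * x i * X + qf M z ≤ qf M x * X := by
    have h3 : ∀ a, z a * (p * x i + ∑ b, M a b * z b) ≤ z a * qf M x := by
      intro a
      by_cases ha : a ∈ J
      · have ha' := ha
        rw [hJ, mem_filter] at ha'
        refine mul_le_mul_of_nonneg_left ?_ (hz0 a)
        rw [← h1 a (hx0 a ha'.2.1)]
        have hai : M a i = p := by
          rw [hMs a i, hMdef]; unfold mat
          rw [if_neg (fun e => ha'.2.2.1 e.symm), if_pos ha'.2.2.2]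
        have : ∀ b, (if b = i then p * x i else 0) + M a b * z b ≤ M a b * x b := by
          intro b
          by_cases hb : b = i
          · subst hb
            rw [if_pos rfl, hzi, hai]; linarith
          · rw [if_neg hb, zero_add]
            exact mul_le_mul_of_nonneg_left (hzx b) (hM0 a b)
        have h5 := Finset.sum_le_sum (s := univ) fun b _ => this b
        rw [Finset.sum_add_distrib, Finset.sum_ite_eq' univ i, if_pos (mem_univ i)] at h5
        exact h5
      · have : z a = 0 := by rw [hz]; simp only [ha, if_false]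
        rw [this]; simp
    have h5 := Finset.sum_le_sum (s := univ) fun a _ => h3 a
    rw [← Finset.sum_mul, ← hX] at h5
    have e3 : ∑ a, z a * (p * x i + ∑ b, M a b * z b) = p * x i * X + qf M z := by
      simp only [mul_add, Finset.sum_add_distrib]
      rw [← Finset.sum_mul, ← hX, ← qf_eq]
      ring
    rw [e3] at h5
    linarith
  rw [hqy] at hq
  rw [hv] at hJsum
  nlinarith

/-- the key inequality: no gray edge in the common non-neighbourhood of a large white clique -/
lemma key_ineq (vb : V → Bool) (ec : V → V → Fin 3) (hec : ∀ i j, ec i j = ec j i) (p : ℝ)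
    (hp : p ≤ 1 / 2) (x : V → ℝ)
    (h2 : ∀ y : V → ℝ, ∑ i, y i = 0 → (∀ i, x i = 0 → y i = 0) → y ≠ 0 →
      0 < qf (mat vb ec p) y)
    (T : Finset V) (hT0 : T.Nonempty) (hT : 4 * (1 - 2 * p) ≤ (6 * p - 2) * T.card)
    (hTx : ∀ v ∈ T, x v ≠ 0) (hTb : ∀ v ∈ T, vb v = true)
    (hTI : ∀ u ∈ T, ∀ v ∈ T, u ≠ v → ec u v = 0)
    (i j : V) (hij : i ≠ j) (hi : x i ≠ 0) (hj : x j ≠ 0) (hvi : vb i = true)
    (hvj : vb j = true) (hiT : i ∉ T) (hjT : j ∉ T) (hg : ec i j = 1)
    (hiv : ∀ v ∈ T, ec i v = 0) (hjv : ∀ v ∈ T, ec j v = 0) : False := by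
  classical
  obtain ⟨M, hMdef⟩ : ∃ M, M = mat vb ec p := ⟨_, rfl⟩
  have hMs : ∀ a b, M a b = M b a := by rw [hMdef]; exact mat_symm vb ec hec p
  rw [← hMdef] at h2
  obtain ⟨τ, hτ⟩ : ∃ τ : ℝ, τ = T.card := ⟨_, rfl⟩
  have hτ0 : 0 < τ := by rw [hτ]; exact_mod_cast hT0.card_pos
  obtain ⟨y, hy⟩ : ∃ y : V → ℝ, y = fun a => (if a = i then (1 : ℝ) else 0) +
    (if a = j then (1 : ℝ) else 0) - (2 / τ) * (if a ∈ T then (1 : ℝ) else 0) := ⟨_, rfl⟩
  have hcard : ∑ a, (if a ∈ T then (1 : ℝ) else 0) = τ := by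
    rw [Finset.sum_ite_mem, Finset.univ_inter]; simp [hτ]
  have hq := h2 y
    (by
      rw [hy, Finset.sum_sub_distrib, Finset.sum_add_distrib, ← Finset.mul_sum, hcard]
      simp
      field_simp
      norm_num)
    (by
      intro a ha
      have h3 : a ≠ i := fun e => hi (e ▸ ha)
      have h4 : a ≠ j := fun e => hj (e ▸ ha)
      have h5 : a ∉ T := fun e => hTx a e ha
      rw [hy]; simp [h3, h4, h5])
    (by
      intro e
      have := congrFun e i
      rw [hy] at this
      simp [hij, hiT] at this)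
  have e1 : ∀ a, ∑ b, M a b * y b = M a i + M a j - (2 / τ) * ∑ b ∈ T, M a b := by
    intro a
    rw [hy]
    simp only [mul_sub, mul_add, Finset.sum_sub_distrib, Finset.sum_add_distrib]
    congr 1
    · simp
    · rw [Finset.mul_sum]
      have : ∀ b, M a b * (2 / τ * if b ∈ T then (1 : ℝ) else 0) =
          if b ∈ T then 2 / τ * M a b else 0 := by
        intro b; split_ifs <;> ring
      simp only [this]
      rw [Finset.sum_ite_mem, Finset.univ_inter]
  have hMij : M i j = 0 := by
    rw [hMdef]; unfold mat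
    rw [if_neg hij, hg, if_neg (by decide), if_neg (by decide)]
  have hdiag : ∀ a, vb a = true → M a a = 1 - p := by
    intro a ha
    rw [hMdef]; unfold mat
    rw [if_pos rfl, ha]; simp
  have hwhite : ∀ a b, a ≠ b → ec a b = 0 → M a b = p := by
    intro a b hab h
    rw [hMdef]; unfold mat
    rw [if_neg hab, if_pos h]
  have hrowT : ∀ a, a ∉ T → (∀ v ∈ T, ec a v = 0) → ∑ b ∈ T, M a b = τ * p := by
    intro a ha h
    rw [Finset.sum_congr rfl fun b hb => hwhite a b (fun e => ha (e ▸ hb)) (h b hb)]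
    rw [Finset.sum_const, nsmul_eq_mul, hτ]
  have hrowTT : ∀ a ∈ T, ∑ b ∈ T, M a b = (1 - p) + (τ - 1) * p := by
    intro a ha
    rw [← Finset.add_sum_erase T _ ha, hdiag a (hTb a ha)]
    rw [Finset.sum_congr rfl fun b hb => hwhite a b (fun e => (Finset.mem_erase.1 hb).1 e.symm)
      (hTI a ha b (Finset.mem_erase.1 hb).2 (fun e => (Finset.mem_erase.1 hb).1 e.symm))]
    rw [Finset.sum_const, nsmul_eq_mul, Finset.card_erase_of_mem ha, hτ]
    rw [Nat.cast_sub (Finset.card_pos.2 ⟨a, ha⟩)]
    simp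
  have r1 : ∑ b, M i b * y b = 1 - 3 * p := by
    rw [e1, hdiag i hvi, hMij, hrowT i hiT hiv]
    field_simp
    ring
  have r2 : ∑ b, M j b * y b = 1 - 3 * p := by
    rw [e1, hdiag j hvj, hMs j i, hMij, hrowT j hjT hjv]
    field_simp
    ring
  have r3 : ∀ a ∈ T, ∑ b, M a b * y b = - (2 / τ) * (1 - 2 * p) := by
    intro a ha
    have h3 : M a i = p := by
      rw [hMs]; exact hwhite i a (fun e => hiT (e ▸ ha)) (hiv a ha)
    have h4 : M a j = p := by
      rw [hMs]; exact hwhite j a (fun e => hjT (e ▸ ha)) (hjv a ha)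
    rw [e1, h3, h4, hrowTT a ha]
    field_simp
    ring
  have hqv : qf M y = 2 - 6 * p + (4 / τ) * (1 - 2 * p) := by
    rw [qf_eq]
    have e2 : ∀ a, y a * ∑ b, M a b * y b = (if a = i then ∑ b, M a b * y b else 0) +
        (if a = j then ∑ b, M a b * y b else 0) -
        (if a ∈ T then (2 / τ) * ∑ b, M a b * y b else 0) := by
      intro a
      have : y a = (if a = i then (1 : ℝ) else 0) +
        (if a = j then (1 : ℝ) else 0) - (2 / τ) * (if a ∈ T then (1 : ℝ) else 0) := by rw [hy]
      rw [this]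
      split_ifs <;> ring
    simp only [e2, Finset.sum_sub_distrib, Finset.sum_add_distrib]
    rw [Finset.sum_ite_eq' univ i, if_pos (mem_univ i), Finset.sum_ite_eq' univ j,
      if_pos (mem_univ j), Finset.sum_ite_mem, Finset.univ_inter, r1, r2]
    rw [Finset.sum_congr rfl fun a ha => by rw [r3 a ha]]
    rw [Finset.sum_const, nsmul_eq_mul, ← hτ]
    field_simp
    ring
  rw [hqv] at hq
  rw [← hτ] at hT
  have : (4 / τ) * (1 - 2 * p) ≤ 6 * p - 2 := by
    rw [div_mul_eq_mul_div, div_le_iff₀ hτ0]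
    exact hT
  linarith

end

end Pool.Agent.V8H97.CRG
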