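import Mathlib
import Pool.Agent.V8H97.CRG.Red

/-!
The reduction theorem, `1/3 < p ≤ 1/2`.
-/

open Finset

namespace Pool.Agent.V8H97.CRG

/-- the bound on the order -/
def ord (n t : ℕ) : ℕ := n + bd t n n + n

/-- a gray clique of size `n` receives every graph on `n` vertices -/
lemma hom_of_clique {n : ℕ} (H : SimpleGraph (Fin n)) {V : Type*} [DecidableEq V] (vb : V → Bool)
    (ec : V → V → Fin 3) (Q : Finset V) (hQ : Q.card = n)
    (hg : ∀ u ∈ Q, ∀ v ∈ Q, u ≠ v → ec u v = 1) : Hom H vb ec := by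
  classical
  let e := Q.equivFinOfCardEq hQ
  refine ⟨fun a => (e.symm a).1, fun u v huv => ?_⟩
  have hne : (e.symm u).1 ≠ (e.symm v).1 := fun h => huv (e.symm.injective (Subtype.ext h))
  refine ⟨fun h => absurd h hne, fun _ => ?_⟩
  rw [hg _ (e.symm u).2 _ (e.symm v).2 hne]
  exact ⟨fun _ => by decide, fun _ => by decide⟩

theorem reduce {n : ℕ} (H : SimpleGraph (Fin n)) (t : ℕ) (ht0 : 0 < t) (p : ℝ)
    (hp1 : 1 / 3 < p) (hp2 : p ≤ 1 / 2) (ht : 4 * (1 - 2 * p) ≤ (6 * p - 2) * t)
    {V : Type} [Fintype V] [DecidableEq V] [Nonempty V] (vb : V → Bool) (ec : V → V → Fin 3)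
    (hec : ∀ i j, ec i j = ec j i) (hnot : ¬ Hom H vb ec) :
    ∃ (V' : Type) (_ : Fintype V') (_ : DecidableEq V') (vb' : V' → Bool)
      (ec' : V' → V' → Fin 3) (x' : V' → ℝ),
      Fintype.card V' ≤ ord n t ∧ (∀ i j, ec' i j = ec' j i) ∧ ¬ Hom H vb' ec' ∧ Smp x' ∧
      ∀ z : V → ℝ, Smp z → qf (mat vb' ec' p) x' ≤ qf (mat vb ec p) z := by
  classical
  obtain ⟨x, hx, hmin, h2, h1⟩ := exists_core (mat vb ec p) (mat_symm vb ec hec p)
  have hp0 : 0 < p := by linarith
  have hx0 : ∀ a, x a ≠ 0 → 0 < x a := fun a ha => lt_of_le_of_ne (hx.1 a) (Ne.symm ha)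
  have F1 : ∀ i j, i ≠ j → x i ≠ 0 → x j ≠ 0 → ec i j ≠ 2 := fun i j hij hi hj =>
    no_black vb ec hec p hp2 x h2 i j hij hi hj
  have F3 : ∀ i j, i ≠ j → x i ≠ 0 → x j ≠ 0 → vb i = false → ec i j = 1 :=
    fun i j hij hi hj hv => white_gray vb ec hec p hp0 hp2 x hx h2 h1 i j hij hi hj hv
  obtain ⟨adj, hadj⟩ : ∃ adj : V → V → Prop, adj = fun u v => u ≠ v ∧ ec u v = 1 := ⟨_, rfl⟩
  have hadjs : ∀ u v, adj u v → adj v u := by
    intro u v h
    rw [hadj] at h ⊢
    exact ⟨fun e => h.1 e.symm, by rw [hec v u]; exact h.2⟩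
  have hirr : ∀ u, ¬ adj u u := by
    intro u h
    rw [hadj] at h
    exact h.1 rfl
  obtain ⟨W, hW⟩ : ∃ W : Finset V, W = univ.filter fun a => x a ≠ 0 ∧ vb a = false := ⟨_, rfl⟩
  obtain ⟨Bk, hBk⟩ : ∃ Bk : Finset V, Bk = univ.filter fun a => x a ≠ 0 ∧ vb a = true := ⟨_, rfl⟩
  have hBx : ∀ a ∈ Bk, x a ≠ 0 ∧ vb a = true := by
    intro a ha; rw [hBk, mem_filter] at ha; exact ha.2
  have hWx : ∀ a ∈ W, x a ≠ 0 ∧ vb a = false := by
    intro a ha; rw [hW, mem_filter] at ha; exact ha.2
  have hnoclq : ∀ Q : Finset V, Q.card = n → ¬ Clq adj Q := by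
    intro Q hQ hc
    refine hnot (hom_of_clique H vb ec Q hQ fun u hu v hv huv => ?_)
    have := hc u hu v hv huv
    rw [hadj] at this
    exact this.2
  have hWc : W.card ≤ n := by
    by_contra hlt
    push Not at hlt
    obtain ⟨Q, hQ, hQc⟩ := exists_subset_card_eq hlt.le
    refine hnoclq Q hQc fun u hu v hv huv => ?_
    rw [hadj]
    exact ⟨huv, F3 u v huv (hWx u (hQ hu)).1 (hWx v (hQ hv)).1 (hWx u (hQ hu)).2⟩
  have hwhite : ∀ a b, a ≠ b → x a ≠ 0 → x b ≠ 0 → ¬ adj a b → ec a b = 0 := by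
    intro a b hab ha hb h
    have h3 : ec a b ≠ 1 := by
      intro h4
      apply h
      rw [hadj]
      exact ⟨hab, h4⟩
    have h4 := F1 a b hab ha hb
    have : ∀ c : Fin 3, c ≠ 1 → c ≠ 2 → c = 0 := by decide
    exact this _ h3 h4
  obtain ⟨r, Z, C, T, hr, hZ, hZc, hCB, hcov, hCI, hTC, hTq, hTT, hTZ⟩ :=
    structure_thm adj hadjs t n hirr n Bk (fun Q _ hc => hnoclq Q hc) (by
      intro T hT htT hTI i hi j hj hij
      by_contra hcon
      push Not at hcon
      have hTne : T.Nonempty := by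
        rw [← Finset.card_pos]; omega
      have hiT : i ∉ T := fun h => (hcon i h).2 (hadjs _ _ hij)
      have hjT : j ∉ T := fun h => (hcon j h).1 hij
      have hij' := hij
      rw [hadj] at hij'
      refine key_ineq vb ec hec p hp2 x h2 T hTne ?_ (fun v hv => (hBx v (hT hv)).1)
        (fun v hv => (hBx v (hT hv)).2) ?_ i j hij'.1 (hBx i hi).1 (hBx j hj).1 (hBx i hi).2
        (hBx j hj).2 hiT hjT hij'.2 ?_ ?_
      · refine ht.trans (mul_le_mul_of_nonneg_left ?_ (by linarith))
        exact_mod_cast htT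
      · intro u hu v hv huv
        exact hwhite u v huv (hBx u (hT hu)).1 (hBx v (hT hv)).1 (hTI u hu v hv huv)
      · intro v hv
        exact hwhite i v (fun e => hiT (e ▸ hv)) (hBx i hi).1 (hBx v (hT hv)).1 (hcon v hv).1
      · intro v hv
        exact hwhite j v (fun e => hjT (e ▸ hv)) (hBx j hj).1 (hBx v (hT hv)).1 (hcon v hv).2)
  -- the new graph
  obtain ⟨S₀, hS₀⟩ : ∃ S₀ : Finset V, S₀ = W ∪ Z := ⟨_, rfl⟩
  have hS₀x : ∀ a ∈ S₀, x a ≠ 0 := by
    intro a ha
    rw [hS₀, mem_union] at ha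
    rcases ha with h | h
    · exact (hWx a h).1
    · exact (hBx a (hZ h)).1
  have hcross : ∀ a ∈ S₀, ∀ i, ∀ u ∈ T i, a ≠ u ∧ ec a u = 1 := by
    intro a ha i u hu
    have huB := hBx u (hCB i (hTC i hu))
    rw [hS₀, mem_union] at ha
    rcases ha with h | h
    · have hne : a ≠ u := by
        intro e
        have h3 := (hWx a h).2
        rw [e, huB.2] at h3
        exact absurd h3 (by decide)
      exact ⟨hne, F3 a u hne (hWx a h).1 huB.1 (hWx a h).2⟩
    · have h3 := hadjs _ _ (hTZ i u hu a h)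
      rw [hadj] at h3
      exact h3
  let V' : Type := {a : V // a ∈ S₀} ⊕ Fin r
  let vb' : V' → Bool := Sum.elim (fun a => vb a.1) (fun _ => false)
  let ec' : V' → V' → Fin 3 := fun a b => match a, b with
    | Sum.inl a, Sum.inl b => ec a.1 b.1
    | _, _ => 1
  have hec' : ∀ a b, ec' a b = ec' b a := by
    intro a b
    rcases a with a | a <;> rcases b with b | b
    · exact hec _ _
    · rfl
    · rfl
    · rfl
  have hnot' : ¬ Hom H vb' ec' := by
    rintro ⟨ψ, hψ⟩
    apply hnot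
    have hinj : ∀ i : Fin r, ∃ e : Fin n → V, Function.Injective e ∧ ∀ a, e a ∈ T i := by
      intro i
      let e := (T i).equivFinOfCardEq (hTq i)
      exact ⟨fun a => (e.symm a).1, fun a b h => e.symm.injective (Subtype.ext h),
        fun a => (e.symm a).2⟩
    choose e he heT using hinj
    obtain ⟨Φ, hΦ⟩ : ∃ Φ : Fin n → V, ∀ u, Φ u = Sum.elim (fun a => a.1) (fun i => e i u) (ψ u) :=
      ⟨_, fun _ => rfl⟩
    refine ⟨Φ, fun u v huv => ?_⟩
    have hcol := hψ u v huv
    rcases hu : ψ u with a | i <;> rcases hv : ψ v with b | j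
    · -- both old
      have e1 : Φ u = a.1 := by rw [hΦ, hu]; rfl
      have e2 : Φ v = b.1 := by rw [hΦ, hv]; rfl
      rw [hu, hv] at hcol
      rw [e1, e2]
      refine ⟨fun h => ?_, fun h => ?_⟩
      · exact hcol.1 (by rw [Subtype.ext h])
      · exact hcol.2 (fun h' => h (by rw [Sum.inl.inj h']))
    · have e1 : Φ u = a.1 := by rw [hΦ, hu]; rfl
      have e2 : Φ v = e j v := by rw [hΦ, hv]; rfl
      rw [e1, e2]
      have h3 := hcross a.1 a.2 j (e j v) (heT j v)
      refine ⟨fun h => absurd h h3.1, fun _ => ?_⟩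
      rw [h3.2]
      exact ⟨fun _ => by decide, fun _ => by decide⟩
    · have e1 : Φ u = e i u := by rw [hΦ, hu]; rfl
      have e2 : Φ v = b.1 := by rw [hΦ, hv]; rfl
      rw [e1, e2]
      have h3 := hcross b.1 b.2 i (e i u) (heT i u)
      refine ⟨fun h => absurd h.symm h3.1, fun _ => ?_⟩
      rw [hec, h3.2]
      exact ⟨fun _ => by decide, fun _ => by decide⟩
    · have e1 : Φ u = e i u := by rw [hΦ, hu]; rfl
      have e2 : Φ v = e j v := by rw [hΦ, hv]; rfl
      rw [e1, e2]
      by_cases hij : i = j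
      · subst hij
        rw [hu, hv] at hcol
        have h3 := hcol.1 rfl
        have hna : ¬ H.Adj u v := by
          intro h4
          have h5 : false = true := h3.1 h4
          exact absurd h5 (by decide)
        have hne : e i u ≠ e i v := fun h => huv (he i h)
        refine ⟨fun h => absurd h hne, fun _ => ⟨fun h => absurd h hna, fun _ => ?_⟩⟩
        exact F1 _ _ hne (hBx _ (hCB i (hTC i (heT i u)))).1 (hBx _ (hCB i (hTC i (heT i v)))).1
      · have h3 := hTT i j hij _ (heT i u) _ (heT j v)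
        rw [hadj] at h3
        refine ⟨fun h => absurd h h3.1, fun _ => ?_⟩
        rw [h3.2]
        exact ⟨fun _ => by decide, fun _ => by decide⟩
  -- the projection
  have hproj : ∀ u, x u ≠ 0 → (∃ h : u ∈ S₀, True) ∨ ∃ i, u ∈ C i := by
    intro u hu
    cases hb : vb u with
    | false =>
      left
      refine ⟨?_, trivial⟩
      rw [hS₀, mem_union, hW, mem_filter]
      exact Or.inl ⟨mem_univ _, hu, hb⟩
    | true =>
      rcases hcov u (by rw [hBk, mem_filter]; exact ⟨mem_univ _, hu, hb⟩) with h | h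
      · left
        refine ⟨?_, trivial⟩
        rw [hS₀, mem_union]
        exact Or.inr h
      · exact Or.inr h
  have hexu : ∃ u, x u ≠ 0 := by
    by_contra hcon
    push Not at hcon
    have := hx.2
    simp [hcon] at this
  obtain ⟨d₀⟩ : Nonempty V' := by
    obtain ⟨u, hu⟩ := hexu
    rcases hproj u hu with ⟨h, -⟩ | ⟨i, -⟩
    · exact ⟨Sum.inl ⟨u, h⟩⟩
    · exact ⟨Sum.inr i⟩
  obtain ⟨π, hπ⟩ : ∃ π : V → V', ∀ u, x u ≠ 0 →
      (∃ h : u ∈ S₀, π u = Sum.inl ⟨u, h⟩) ∨ ∃ i, u ∈ C i ∧ π u = Sum.inr i := by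
    refine ⟨fun u => if h : u ∈ S₀ then Sum.inl ⟨u, h⟩ else
      if h' : ∃ i, u ∈ C i then Sum.inr h'.choose else d₀, fun u hu => ?_⟩
    by_cases h : u ∈ S₀
    · left
      exact ⟨h, by simp only [h, dif_pos]⟩
    · right
      have h' : ∃ i, u ∈ C i := by
        rcases hproj u hu with ⟨h3, -⟩ | h3
        · exact absurd h3 h
        · exact h3
      exact ⟨h'.choose, h'.choose_spec, by simp only [h, h', dif_pos, dif_neg, not_false_eq_true]⟩
  have hentry : ∀ u v, x u ≠ 0 → x v ≠ 0 →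
      mat vb' ec' p (π u) (π v) ≤ mat vb ec p u v := by
    intro u v hu hv
    have hM0 := mat_nonneg vb ec p hp0.le (by linarith) u v
    rcases hπ u hu with ⟨h3, h4⟩ | ⟨i, h3, h4⟩ <;> rcases hπ v hv with ⟨h5, h6⟩ | ⟨j, h5, h6⟩
    · rw [h4, h6]
      unfold mat
      by_cases huv : u = v
      · subst huv
        rw [if_pos rfl, if_pos rfl]
        exact le_rfl
      · rw [if_neg (fun e => huv (congrArg Subtype.val (Sum.inl.inj e))), if_neg huv]
    · rw [h4, h6]
      have : mat vb' ec' p (Sum.inl ⟨u, h3⟩) (Sum.inr j) = 0 := by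
        have hE : ec' (Sum.inl ⟨u, h3⟩) (Sum.inr j) = 1 := rfl
        unfold mat
        rw [if_neg (by simp), hE, if_neg (by decide), if_neg (by decide)]
      rw [this]; exact hM0
    · rw [h4, h6]
      have : mat vb' ec' p (Sum.inr i) (Sum.inl ⟨v, h5⟩) = 0 := by
        have hE : ec' (Sum.inr i) (Sum.inl ⟨v, h5⟩) = 1 := rfl
        unfold mat
        rw [if_neg (by simp), hE, if_neg (by decide), if_neg (by decide)]
      rw [this]; exact hM0
    · rw [h4, h6]
      by_cases hij : i = j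
      · subst hij
        have : mat vb' ec' p (Sum.inr i) (Sum.inr i) = p := by
          unfold mat
          rw [if_pos rfl]
          simp [vb']
        rw [this]
        unfold mat
        by_cases huv : u = v
        · rw [if_pos huv, (hBx u (hCB i h3)).2]
          simp only [if_true]
          linarith
        · rw [if_neg huv, if_pos (hwhite u v huv hu hv (hCI i u h3 v h5 huv))]
      · have : mat vb' ec' p (Sum.inr i) (Sum.inr j) = 0 := by
          have hE : ec' (Sum.inr i) (Sum.inr j) = 1 := rfl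
          unfold mat
          rw [if_neg (fun e => hij (Sum.inr.inj e)), hE, if_neg (by decide), if_neg (by decide)]
        rw [this]; exact hM0
  obtain ⟨x', hx'⟩ : ∃ x' : V' → ℝ, x' = fun a => ∑ u ∈ univ.filter (fun u => π u = a), x u :=
    ⟨_, rfl⟩
  have hpush : ∀ f : V' → ℝ, ∑ a, x' a * f a = ∑ u, x u * f (π u) := by
    intro f
    rw [← Finset.sum_fiberwise (s := univ) (g := π) (f := fun u => x u * f (π u))]
    refine Finset.sum_congr rfl fun a _ => ?_
    rw [hx']
    simp only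
    rw [Finset.sum_mul]
    refine Finset.sum_congr rfl fun u hu => ?_
    rw [(mem_filter.1 hu).2]
  refine ⟨V', inferInstance, inferInstance, vb', ec', x', ?_, hec', hnot', ⟨?_, ?_⟩, ?_⟩
  · have : Fintype.card V' = S₀.card + r := by
      simp [V']
    rw [this, ord, hS₀]
    have := card_union_le W Z
    omega
  · intro a
    rw [hx']
    exact Finset.sum_nonneg fun u _ => hx.1 u
  · have := hpush (fun _ => 1)
    simp only [mul_one] at this
    rw [this, hx.2]
  · intro z hz
    refine le_trans ?_ (hmin z hz)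
    have e1 : qf (mat vb' ec' p) x' = ∑ u, x u * ∑ v, x v * mat vb' ec' p (π u) (π v) := by
      have : qf (mat vb' ec' p) x' = ∑ a, x' a * ∑ b, x' b * mat vb' ec' p a b := by
        unfold qf
        refine Finset.sum_congr rfl fun a _ => ?_
        rw [Finset.mul_sum]
        refine Finset.sum_congr rfl fun b _ => ?_
        ring
      rw [this]
      simp only [hpush]
    have e2 : qf (mat vb ec p) x = ∑ u, x u * ∑ v, x v * mat vb ec p u v := by
      unfold qf
      refine Finset.sum_congr rfl fun a _ => ?_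
      rw [Finset.mul_sum]
      refine Finset.sum_congr rfl fun b _ => ?_
      ring
    rw [e1, e2]
    refine Finset.sum_le_sum fun u _ => ?_
    by_cases hu : x u = 0
    · rw [hu, zero_mul, zero_mul]
    refine mul_le_mul_of_nonneg_left ?_ (hx.1 u)
    refine Finset.sum_le_sum fun v _ => ?_
    by_cases hv : x v = 0
    · rw [hv, zero_mul, zero_mul]
    exact mul_le_mul_of_nonneg_left (hentry u v hu hv) (hx.1 v)

end Pool.Agent.V8H97.CRG
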