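import Mathlib
import Pool.Agent.V8H97.CRG.Red2
import Pool.Agent.V8H97.CRG.Gap2
import Pool.Agent.V8H97.CRG.Comb2

/-!
The reduction theorem, `1/4 < p ≤ 1/2`.
-/

open Finset

namespace Pool.Agent.V8H97.CRG

/-- size of the large independent sets -/
def m0 (t s : ℕ) : ℕ := 8 * (2 ^ s * s) ^ 2 + 4 * s + t + 1

/-- the bound on the order -/
def ord2 (n t s : ℕ) : ℕ := n + bd2 (m0 t s) t n s n + n * s + n

section
variable {V : Type*} [Fintype V] [DecidableEq V]

lemma bf_sum_left (M : V → V → ℝ) {ι : Type*} [Fintype ι] (f : ι → V → ℝ) (w : V → ℝ) :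
    bf M (fun a => ∑ i, f i a) w = ∑ i, bf M (f i) w := by
  rw [bf_eq]
  simp only [bf_eq, Finset.sum_mul]
  rw [Finset.sum_comm]

lemma bf_sum_right (M : V → V → ℝ) {ι : Type*} [Fintype ι] (f : ι → V → ℝ) (w : V → ℝ) :
    bf M w (fun a => ∑ i, f i a) = ∑ i, bf M w (f i) := by
  simp only [bf_eq, Finset.mul_sum]
  conv_rhs => rw [Finset.sum_comm]
  refine Finset.sum_congr rfl fun a _ => ?_
  rw [Finset.sum_comm]

lemma qf_sum (M : V → V → ℝ) {ι : Type*} [Fintype ι] (f : ι → V → ℝ) :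
    qf M (fun a => ∑ i, f i a) = ∑ i, ∑ j, bf M (f i) (f j) := by
  have : qf M (fun a => ∑ i, f i a) = bf M (fun a => ∑ i, f i a) (fun a => ∑ i, f i a) := rfl
  rw [this, bf_sum_left]
  refine Finset.sum_congr rfl fun i _ => ?_
  rw [bf_sum_right]

/-- the form of black vertices -/
lemma form_eq (vb : V → Bool) (ec : V → V → Fin 3) (p : ℝ) (hp0 : 0 < p) (adj : V → V → Prop)
    (hadj : ∀ u v, adj u v ↔ u ≠ v ∧ ec u v = 1) (B : Finset V) (hB : ∀ a ∈ B, vb a = true)
    (hnb : ∀ a ∈ B, ∀ b ∈ B, a ≠ b → ec a b ≠ 2) (z : V → ℝ) (hz : ∀ a, z a ≠ 0 → a ∈ B) :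
    qf (mat vb ec p) z = p * (∑ a, z a) ^ 2 + p * qf (gm ((1 - 2 * p) / p) adj) z := by
  classical
  have h1 : p * (∑ a, z a) ^ 2 = ∑ i, ∑ j, z i * z j * p := by
    rw [pow_two, Finset.sum_mul_sum, Finset.mul_sum]
    refine Finset.sum_congr rfl fun i _ => ?_
    rw [Finset.mul_sum]
    refine Finset.sum_congr rfl fun j _ => ?_
    ring
  rw [h1]
  unfold qf
  rw [Finset.mul_sum, ← Finset.sum_add_distrib]
  refine Finset.sum_congr rfl fun i _ => ?_
  rw [Finset.mul_sum, ← Finset.sum_add_distrib]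
  refine Finset.sum_congr rfl fun j _ => ?_
  by_cases hi : z i = 0
  · rw [hi]; ring
  by_cases hj : z j = 0
  · rw [hj]; ring
  have hiB := hz i hi
  have hjB := hz j hj
  unfold mat gm
  by_cases hij : i = j
  · subst hij
    have : ¬ adj i i := fun h => ((hadj i i).1 h).1 rfl
    rw [if_pos rfl, if_pos rfl, if_neg this, hB i hiB]
    simp only [if_true]
    field_simp
    ring
  · rw [if_neg hij, if_neg hij]
    by_cases ha : adj i j
    · have h2 := ((hadj i j).1 ha).2
      rw [if_pos ha, h2, if_neg (by decide), if_neg (by decide)]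
      ring
    · have h2 : ec i j = 0 := by
        have h3 : ec i j ≠ 1 := fun h => ha ((hadj i j).2 ⟨hij, h⟩)
        have h4 := hnb i hiB j hjB hij
        have : ∀ c : Fin 3, c ≠ 1 → c ≠ 2 → c = 0 := by decide
        exact this _ h3 h4
      rw [if_neg ha, h2, if_pos rfl]
      ring

lemma bf_nonneg (M : V → V → ℝ) (x y : V → ℝ) (hM : ∀ i j, 0 ≤ M i j) (hx : ∀ a, 0 ≤ x a)
    (hy : ∀ a, 0 ≤ y a) : 0 ≤ bf M x y := by
  unfold bf
  exact Finset.sum_nonneg fun i _ => Finset.sum_nonneg fun j _ =>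
    mul_nonneg (mul_nonneg (hx i) (hy j)) (hM i j)

lemma bf_zero (M : V → V → ℝ) (x y : V → ℝ) (h : ∀ i j, x i ≠ 0 → y j ≠ 0 → M i j = 0) :
    bf M x y = 0 := by
  unfold bf
  refine Finset.sum_eq_zero fun i _ => Finset.sum_eq_zero fun j _ => ?_
  by_cases hi : x i = 0
  · rw [hi]; ring
  by_cases hj : y j = 0
  · rw [hj]; ring
  rw [h i j hi hj, mul_zero]

end

set_option maxHeartbeats 4000000 in
theorem reduce2 {n : ℕ} (H : SimpleGraph (Fin n)) (t s : ℕ) (d : ℝ) (hd : 0 < d) (p : ℝ)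
    (hp0 : 0 < p) (hp2 : p ≤ 1 / 2) (hlam : (1 - 2 * p) / p ≤ 2 - d) (ht : 9 ≤ d * t)
    (hsd : 4 ≤ d * s)
    {V : Type} [Fintype V] [DecidableEq V] [Nonempty V] (vb : V → Bool) (ec : V → V → Fin 3)
    (hec : ∀ i j, ec i j = ec j i) (hnot : ¬ Hom H vb ec) :
    ∃ (V' : Type) (_ : Fintype V') (_ : DecidableEq V') (vb' : V' → Bool)
      (ec' : V' → V' → Fin 3) (x' : V' → ℝ),
      Fintype.card V' ≤ ord2 n t s ∧ (∀ i j, ec' i j = ec' j i) ∧ ¬ Hom H vb' ec' ∧ Smp x' ∧
      ∀ z : V → ℝ, Smp z → qf (mat vb' ec' p) x' ≤ qf (mat vb ec p) z := by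
  classical
  obtain ⟨x, hx, hmin, h2, h1⟩ := exists_core (mat vb ec p) (mat_symm vb ec hec p)
  have hx0 : ∀ a, x a ≠ 0 → 0 < x a := fun a ha => lt_of_le_of_ne (hx.1 a) (Ne.symm ha)
  have F1 : ∀ i j, i ≠ j → x i ≠ 0 → x j ≠ 0 → ec i j ≠ 2 := fun i j hij hi hj =>
    no_black vb ec hec p hp2 x h2 i j hij hi hj
  have F3 : ∀ i j, i ≠ j → x i ≠ 0 → x j ≠ 0 → vb i = false → ec i j = 1 :=
    fun i j hij hi hj hv => white_gray vb ec hec p hp0 hp2 x hx h2 h1 i j hij hi hj hv
  obtain ⟨adj, hadj⟩ : ∃ adj : V → V → Prop, ∀ u v, adj u v ↔ u ≠ v ∧ ec u v = 1 :=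
    ⟨fun u v => u ≠ v ∧ ec u v = 1, fun _ _ => Iff.rfl⟩
  have hadjs : ∀ u v, adj u v → adj v u := by
    intro u v h
    rw [hadj] at h ⊢
    exact ⟨fun e => h.1 e.symm, by rw [hec v u]; exact h.2⟩
  have hirr : ∀ u, ¬ adj u u := by
    intro u h
    rw [hadj] at h
    exact h.1 rfl
  obtain ⟨W, hW⟩ : ∃ W : Finset V, W = univ.filter fun a => x a ≠ 0 ∧ vb a = false := ⟨_, rfl⟩
  obtain ⟨Bk, hBk⟩ : ∃ Bk : Finset V, Bk = univ.filter fun a => x a ≠ 0 ∧ vb a = true := ⟨_, rfl⟩
  have hBx : ∀ a ∈ Bk, x a ≠ 0 ∧ vb a = true := by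
    intro a ha; rw [hBk, mem_filter] at ha; exact ha.2
  have hWx : ∀ a ∈ W, x a ≠ 0 ∧ vb a = false := by
    intro a ha; rw [hW, mem_filter] at ha; exact ha.2
  have hnoclq : ∀ Q : Finset V, Q.card = n → ¬ Clq adj Q := by
    intro Q hQ hc
    refine hnot (hom_of_clique H vb ec Q hQ fun u hu v hv huv => ?_)
    have := hc u hu v hv huv
    rw [hadj] at this
    exact this.2
  have hWc : W.card ≤ n := by
    by_contra hlt
    push Not at hlt
    obtain ⟨Q, hQ, hQc⟩ := exists_subset_card_eq hlt.le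
    refine hnoclq Q hQc fun u hu v hv huv => ?_
    rw [hadj]
    exact ⟨huv, F3 u v huv (hWx u (hQ hu)).1 (hWx v (hQ hv)).1 (hWx u (hQ hu)).2⟩
  obtain ⟨lam, hlamdef⟩ : ∃ lam : ℝ, lam = (1 - 2 * p) / p := ⟨_, rfl⟩
  have hlam0 : 0 ≤ lam := by rw [hlamdef]; exact div_nonneg (by linarith) hp0.le
  rw [← hlamdef] at hlam
  have hform : ∀ z : V → ℝ, (∀ a, z a ≠ 0 → a ∈ Bk) →
      qf (mat vb ec p) z = p * (∑ a, z a) ^ 2 + p * qf (gm lam adj) z := by
    intro z hz
    rw [hlamdef]
    exact form_eq vb ec p hp0 adj hadj Bk (fun a ha => (hBx a ha).2)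
      (fun a ha b hb hab => F1 a b hab (hBx a ha).1 (hBx b hb).1) z hz
  have hPD : ∀ B' ⊆ Bk, PD lam adj B' := by
    intro B' hB' z hz0 hzs hzne
    have h3 := h2 z hz0 (by
      intro a ha
      by_contra h
      exact (hBx a (hB' (hzs a h))).1 ha) hzne
    rw [hform z (fun a ha => hB' (hzs a ha)), hz0] at h3
    have h4 : 0 < p * qf (gm lam adj) z := by nlinarith
    exact (mul_pos_iff_of_pos_left hp0).1 h4
  obtain ⟨P, hPdef⟩ : ∃ P : Finset V → Finset V → Prop, ∀ C F, P C F ↔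
      ∃ y : V → ℝ, (∀ a, 0 ≤ y a) ∧ (∀ a, y a ≠ 0 → a ∈ F) ∧
        ((F = ∅ ∧ ∀ x : V → ℝ, (∀ a, 0 ≤ x a) → (∀ a, x a ≠ 0 → a ∈ C) →
            0 ≤ qf (gm lam adj) x) ∨
          (∑ a, y a = 1 ∧ ∀ x : V → ℝ, (∀ a, 0 ≤ x a) → (∀ a, x a ≠ 0 → a ∈ C) →
            (∑ a, x a) ^ 2 * qf (gm lam adj) y ≤ qf (gm lam adj) x)) :=
    ⟨fun C F => ∃ y : V → ℝ, (∀ a, 0 ≤ y a) ∧ (∀ a, y a ≠ 0 → a ∈ F) ∧
        ((F = ∅ ∧ ∀ x : V → ℝ, (∀ a, 0 ≤ x a) → (∀ a, x a ≠ 0 → a ∈ C) →
            0 ≤ qf (gm lam adj) x) ∨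
          (∑ a, y a = 1 ∧ ∀ x : V → ℝ, (∀ a, 0 ≤ x a) → (∀ a, x a ≠ 0 → a ∈ C) →
            (∑ a, x a) ^ 2 * qf (gm lam adj) y ≤ qf (gm lam adj) x)), fun _ _ => Iff.rfl⟩
  obtain ⟨r, Z, C, T, F, hr, hZ, hZc, hCB, hcov, hFC, hFs, hPF, hTB, hTq, hTT, hTF, hFF, hTZ,
      hFZ⟩ :=
    structure_thm2 adj hadjs hirr (m0 t s) t n s P n Bk (fun Q _ hc => hnoclq Q hc) (by
      intro B' hB' T hT htT hTI
      have hCiff : ∀ u ∈ B', u ∈ B'.filter (fun u => ∀ N ⊆ T, (∀ v ∈ N, adj u v) → N.card ≤ 3) ↔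
          ∀ N ⊆ T, (∀ v ∈ N, adj u v) → N.card ≤ 3 := by
        intro u hu
        rw [mem_filter]
        exact ⟨fun h => h.2, fun h => ⟨hu, h⟩⟩
      obtain ⟨F, hF1, hF2, hF3, hF4⟩ := core lam adj hadjs hirr B' (hPD B' hB') d hd hlam0 hlam t
        ht s hsd T hT hTI htT (B'.filter (fun u => ∀ N ⊆ T, (∀ v ∈ N, adj u v) → N.card ≤ 3))
        (filter_subset _ _) hCiff
      refine ⟨_, F, filter_subset _ _, hF1, hF2, hF3, ?_, (hPdef _ _).2 hF4⟩
      intro u hu huC M hM hMu
      rw [hCiff u hu] at huC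
      push Not at huC
      obtain ⟨N, hN, hNu, hN4⟩ := huC
      exact (star_test lam adj hadjs hirr B' (hPD B' hB') d hd hlam0 hlam t ht T hT hTI u hu N hN
        hNu hN4 M hM hMu).le)
  have hP' : ∀ i, ∃ y : V → ℝ, (∀ a, 0 ≤ y a) ∧ (∀ a, y a ≠ 0 → a ∈ F i) ∧
        ((F i = ∅ ∧ ∀ x : V → ℝ, (∀ a, 0 ≤ x a) → (∀ a, x a ≠ 0 → a ∈ C i) →
            0 ≤ qf (gm lam adj) x) ∨
          (∑ a, y a = 1 ∧ ∀ x : V → ℝ, (∀ a, 0 ≤ x a) → (∀ a, x a ≠ 0 → a ∈ C i) →
            (∑ a, x a) ^ 2 * qf (gm lam adj) y ≤ qf (gm lam adj) x)) :=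
    fun i => (hPdef _ _).1 (hPF i)
  choose y hy0 hyF hyC using hP'
  -- the new graph
  obtain ⟨S₀, hS₀⟩ : ∃ S₀ : Finset V, S₀ = W ∪ Z ∪ univ.biUnion F := ⟨_, rfl⟩
  obtain ⟨I₀, hI₀⟩ : ∃ I₀ : Finset (Fin r), I₀ = univ.filter fun i => F i = ∅ := ⟨_, rfl⟩
  have hI₀m : ∀ i, i ∈ I₀ ↔ F i = ∅ := by intro i; rw [hI₀, mem_filter]; simp
  have hS₀x : ∀ a ∈ S₀, x a ≠ 0 := by
    intro a ha
    rw [hS₀, mem_union, mem_union, mem_biUnion] at ha
    rcases ha with (h | h) | ⟨i, -, h⟩
    · exact (hWx a h).1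
    · exact (hBx a (hZ h)).1
    · exact (hBx a (hCB i (hFC i h))).1
  have hWall : ∀ a ∈ W, ∀ b, x b ≠ 0 → a ≠ b → ec a b = 1 := fun a ha b hb hab =>
    F3 a b hab (hWx a ha).1 hb (hWx a ha).2
  have hWB : ∀ a ∈ W, ∀ b ∈ Bk, a ≠ b := by
    intro a ha b hb e
    have h3 := (hWx a ha).2
    rw [e, (hBx b hb).2] at h3
    exact absurd h3 (by decide)
  have hcross : ∀ a ∈ S₀, ∀ i, F i = ∅ → ∀ u ∈ T i, a ≠ u ∧ ec a u = 1 := by
    intro a ha i hFi u hu
    have huB := hTB i hu
    rw [hS₀, mem_union, mem_union, mem_biUnion] at ha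
    rcases ha with (h | h) | ⟨j, -, h⟩
    · exact ⟨hWB a h u huB, hWall a h u (hBx u huB).1 (hWB a h u huB)⟩
    · exact (hadj _ _).1 (hadjs _ _ (hTZ i u hu a h))
    · have hij : i ≠ j := by
        intro e
        rw [← e, hFi] at h
        exact absurd h (notMem_empty a)
      exact (hadj _ _).1 (hadjs _ _ (hTF i j hij u hu a h))
  let V' : Type := {a : V // a ∈ S₀} ⊕ {i : Fin r // i ∈ I₀}
  let vb' : V' → Bool := Sum.elim (fun a => vb a.1) (fun _ => false)
  let ec' : V' → V' → Fin 3 := fun a b => match a, b with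
    | Sum.inl a, Sum.inl b => ec a.1 b.1
    | _, _ => 1
  have hec' : ∀ a b, ec' a b = ec' b a := by
    intro a b
    rcases a with a | a <;> rcases b with b | b
    · exact hec _ _
    · rfl
    · rfl
    · rfl
  have hnot' : ¬ Hom H vb' ec' := by
    rintro ⟨ψ, hψ⟩
    apply hnot
    have hinj : ∀ i : Fin r, ∃ e : Fin n → V, Function.Injective e ∧ ∀ a, e a ∈ T i := by
      intro i
      let e := (T i).equivFinOfCardEq (hTq i)
      exact ⟨fun a => (e.symm a).1, fun a b h => e.symm.injective (Subtype.ext h),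
        fun a => (e.symm a).2⟩
    choose e he heT using hinj
    obtain ⟨Φ, hΦ⟩ : ∃ Φ : Fin n → V, ∀ u, Φ u = Sum.elim (fun a => a.1) (fun i => e i.1 u) (ψ u) :=
      ⟨_, fun _ => rfl⟩
    refine ⟨Φ, fun u v huv => ?_⟩
    have hcol := hψ u v huv
    rcases hu : ψ u with a | i <;> rcases hv : ψ v with b | j
    · -- both old
      have e1 : Φ u = a.1 := by rw [hΦ, hu]; rfl
      have e2 : Φ v = b.1 := by rw [hΦ, hv]; rfl
      rw [hu, hv] at hcol
      rw [e1, e2]
      refine ⟨fun h => ?_, fun h => ?_⟩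
      · exact hcol.1 (by rw [Subtype.ext h])
      · exact hcol.2 (fun h' => h (by rw [Sum.inl.inj h']))
    · have e1 : Φ u = a.1 := by rw [hΦ, hu]; rfl
      have e2 : Φ v = e j.1 v := by rw [hΦ, hv]; rfl
      rw [e1, e2]
      have h3 := hcross a.1 a.2 j.1 ((hI₀m _).1 j.2) (e j.1 v) (heT j.1 v)
      refine ⟨fun h => absurd h h3.1, fun _ => ?_⟩
      rw [h3.2]
      exact ⟨fun _ => by decide, fun _ => by decide⟩
    · have e1 : Φ u = e i.1 u := by rw [hΦ, hu]; rfl
      have e2 : Φ v = b.1 := by rw [hΦ, hv]; rfl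
      rw [e1, e2]
      have h3 := hcross b.1 b.2 i.1 ((hI₀m _).1 i.2) (e i.1 u) (heT i.1 u)
      refine ⟨fun h => absurd h.symm h3.1, fun _ => ?_⟩
      rw [hec, h3.2]
      exact ⟨fun _ => by decide, fun _ => by decide⟩
    · have e1 : Φ u = e i.1 u := by rw [hΦ, hu]; rfl
      have e2 : Φ v = e j.1 v := by rw [hΦ, hv]; rfl
      rw [e1, e2]
      by_cases hij : i = j
      · subst hij
        rw [hu, hv] at hcol
        have h3 := hcol.1 rfl
        have hna : ¬ H.Adj u v := by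
          intro h4
          have h5 : false = true := h3.1 h4
          exact absurd h5 (by decide)
        have hne : e i.1 u ≠ e i.1 v := fun h => huv (he i.1 h)
        refine ⟨fun h => absurd h hne, fun _ => ⟨fun h => absurd h hna, fun _ => ?_⟩⟩
        exact F1 _ _ hne (hBx _ (hTB i.1 (heT i.1 u))).1 (hBx _ (hTB i.1 (heT i.1 v))).1
      · have h3 := hTT i.1 j.1 (fun h => hij (Subtype.ext h)) _ (heT i.1 u) _ (heT j.1 v)
        rw [hadj] at h3
        refine ⟨fun h => absurd h h3.1, fun _ => ?_⟩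
        rw [h3.2]
        exact ⟨fun _ => by decide, fun _ => by decide⟩
  -- classes
  obtain ⟨κ, hκ⟩ : ∃ κ : V → Option (Fin r), (∀ u, x u ≠ 0 → κ u = none → u ∈ W ∪ Z) ∧
      (∀ u, u ∈ W ∪ Z → κ u = none) ∧ ∀ u i, x u ≠ 0 → κ u = some i → u ∈ C i := by
    refine ⟨fun u => if u ∈ W ∪ Z then none else if h' : ∃ i, u ∈ C i then some h'.choose
      else none, fun u hu hn => ?_, fun u hu => by simp only [hu, if_true], fun u i hu hi => ?_⟩
    · by_contra hcon
      simp only [hcon, if_false] at hn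
      have h' : ∃ i, u ∈ C i := by
        cases hb : vb u with
        | false =>
          exact absurd (mem_union_left _ (by rw [hW, mem_filter]; exact ⟨mem_univ _, hu, hb⟩)) hcon
        | true =>
          rcases hcov u (by rw [hBk, mem_filter]; exact ⟨mem_univ _, hu, hb⟩) with h | h
          · exact absurd (mem_union_right _ h) hcon
          · exact h
      rw [dif_pos h'] at hn
      exact absurd hn (by simp)
    · by_cases h : u ∈ W ∪ Z
      · simp only [h, if_true] at hi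
        exact absurd hi (by simp)
      · simp only [h, if_false] at hi
        by_cases h' : ∃ i, u ∈ C i
        · rw [dif_pos h'] at hi
          rw [← Option.some.inj hi]
          exact h'.choose_spec
        · rw [dif_neg h'] at hi
          exact absurd hi (by simp)
  obtain ⟨hκ1, hκ2, hκ3⟩ := hκ
  obtain ⟨xp, hxp⟩ : ∃ xp : Option (Fin r) → V → ℝ, xp = fun o u => if κ u = o then x u else 0 :=
    ⟨_, rfl⟩
  have hxp0 : ∀ o a, 0 ≤ xp o a := by
    intro o a; rw [hxp]; simp only; split_ifs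
    · exact hx.1 a
    · exact le_rfl
  have hxsum : x = fun a => ∑ o, xp o a := by
    funext a
    rw [hxp]
    simp
  obtain ⟨m, hm⟩ : ∃ m : Fin r → ℝ, m = fun i => ∑ a, xp (some i) a := ⟨_, rfl⟩
  have hm0 : ∀ i, 0 ≤ m i := by
    intro i; rw [hm]; exact Finset.sum_nonneg fun a _ => hxp0 _ a
  have hone : ∑ a, xp none a + ∑ i, m i = 1 := by
    rw [← hx.2]
    conv_rhs => rw [hxsum]
    rw [Finset.sum_comm, Fintype.sum_option, hm]
  have hxpC : ∀ i a, xp (some i) a ≠ 0 → a ∈ C i := by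
    intro i a ha
    rw [hxp] at ha
    simp only at ha
    by_cases h : κ a = some i
    · rw [if_pos h] at ha
      exact hκ3 a i ha h
    · rw [if_neg h] at ha
      exact absurd rfl ha
  have hxpN : ∀ a, xp none a ≠ 0 → a ∈ W ∪ Z := by
    intro a ha
    rw [hxp] at ha
    simp only at ha
    by_cases h : κ a = none
    · rw [if_pos h] at ha
      exact hκ1 a ha h
    · rw [if_neg h] at ha
      exact absurd rfl ha
  -- new vectors
  obtain ⟨f, hf⟩ : ∃ f : Option (Fin r) → V → ℝ, f = fun o a => match o with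
    | none => xp none a
    | some i => m i * y i a := ⟨_, rfl⟩
  have hfn : f none = xp none := by rw [hf]
  have hfs : ∀ i, f (some i) = fun a => m i * y i a := by intro i; rw [hf]
  have hfF : ∀ i a, f (some i) a ≠ 0 → a ∈ F i := by
    intro i a ha
    apply hyF
    intro h
    apply ha
    rw [hfs]
    simp only
    rw [h, mul_zero]
  have hf0 : ∀ o a, 0 ≤ f o a := by
    intro o a
    cases o with
    | none => rw [hfn]; exact hxp0 _ _
    | some i => rw [hfs]; exact mul_nonneg (hm0 i) (hy0 i a)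
  obtain ⟨X, hX⟩ : ∃ X : V → ℝ, X = fun a => ∑ o, f o a := ⟨_, rfl⟩
  have hX0 : ∀ a, 0 ≤ X a := by
    intro a; rw [hX]; exact Finset.sum_nonneg fun o _ => hf0 o a
  have hXS : ∀ a, X a ≠ 0 → a ∈ S₀ := by
    intro a ha
    rw [hX] at ha
    obtain ⟨o, -, ho⟩ := Finset.exists_ne_zero_of_sum_ne_zero ha
    rw [hS₀, mem_union, mem_biUnion]
    cases o with
    | none => rw [hfn] at ho; exact Or.inl (hxpN a ho)
    | some i => exact Or.inr ⟨i, mem_univ _, hfF i a ho⟩
  have hgray : ∀ a b, a ≠ b → ec a b = 1 → mat vb ec p a b = 0 := by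
    intro a b hab h
    unfold mat
    rw [if_neg hab, h, if_neg (by decide), if_neg (by decide)]
  have hgrayA : ∀ a b, adj a b → mat vb ec p a b = 0 := fun a b h =>
    hgray a b ((hadj _ _).1 h).1 ((hadj _ _).1 h).2
  have hqX : qf (mat vb ec p) X = ∑ o, qf (mat vb ec p) (f o) := by
    rw [hX, qf_sum]
    refine Finset.sum_congr rfl fun o _ => ?_
    rw [Finset.sum_eq_single o]
    · rfl
    · intro o' _ hne
      apply bf_zero
      intro a b ha hb
      cases o with
      | none =>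
        cases o' with
        | none => exact absurd rfl hne
        | some j =>
          rw [hfn] at ha
          have hbF := hfF j b hb
          have hbB := hCB j (hFC j hbF)
          rcases mem_union.1 (hxpN a ha) with h | h
          · exact hgray a b (hWB a h b hbB) (hWall a h b (hBx b hbB).1 (hWB a h b hbB))
          · exact hgrayA _ _ (hadjs _ _ (hFZ j b hbF a h))
      | some i =>
        have haF := hfF i a ha
        have haB := hCB i (hFC i haF)
        cases o' with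
        | none =>
          rw [hfn] at hb
          rcases mem_union.1 (hxpN b hb) with h | h
          · rw [mat_symm vb ec hec p]
            exact hgray b a (hWB b h a haB) (hWall b h a (hBx a haB).1 (hWB b h a haB))
          · exact hgrayA _ _ (hFZ i a haF b h)
        | some j =>
          have hbF := hfF j b hb
          exact hgrayA _ _ (hFF i j (fun e => hne (by rw [e])) a haF b hbF)
    · intro h; exact absurd (mem_univ o) h
  have hM0 := mat_nonneg vb ec p hp0.le (by linarith : p ≤ 1)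
  have hqx : ∑ o, qf (mat vb ec p) (xp o) ≤ qf (mat vb ec p) x := by
    conv_rhs => rw [hxsum]
    rw [qf_sum]
    refine Finset.sum_le_sum fun o _ => ?_
    exact Finset.single_le_sum (f := fun o' => bf (mat vb ec p) (xp o) (xp o'))
      (fun o' _ => bf_nonneg _ _ _ hM0 (hxp0 o) (hxp0 o')) (mem_univ o)
  obtain ⟨x', hx'⟩ : ∃ x' : V' → ℝ, x' = Sum.elim (fun a => X a.1) (fun i => m i.1) := ⟨_, rfl⟩
  have hsumy : ∀ i, ∑ a, y i a = if i ∈ I₀ then 0 else 1 := by
    intro i
    by_cases hi : i ∈ I₀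
    · rw [if_pos hi]
      refine Finset.sum_eq_zero fun a _ => ?_
      by_contra h
      have := hyF i a h
      rw [(hI₀m i).1 hi] at this
      exact absurd this (notMem_empty a)
    · rw [if_neg hi]
      rcases hyC i with h | h
      · exact absurd ((hI₀m i).2 h.1) hi
      · exact h.1
  have hsI : ∀ g : Fin r → ℝ, ∑ i : {i : Fin r // i ∈ I₀}, g i.1 = ∑ i, if i ∈ I₀ then g i else 0 := by
    intro g
    rw [← sum_sub I₀ (fun i => if i ∈ I₀ then g i else 0)]
    · refine Finset.sum_congr rfl fun i _ => ?_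
      rw [if_pos i.2]
    · intro i hi
      by_contra h
      exact hi (if_neg h)
  refine ⟨V', inferInstance, inferInstance, vb', ec', x', ?_, hec', hnot', ⟨?_, ?_⟩, ?_⟩
  · have hc : Fintype.card V' = S₀.card + I₀.card := by
      simp [V']
    have hc1 : (univ.biUnion F).card ≤ n * s := by
      calc (univ.biUnion F).card ≤ ∑ i, (F i).card := card_biUnion_le
        _ ≤ ∑ _i : Fin r, s := sum_le_sum fun i _ => hFs i
        _ = r * s := by rw [sum_const, card_univ, Fintype.card_fin, smul_eq_mul]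
        _ ≤ n * s := Nat.mul_le_mul_right _ hr
    have hc2 : I₀.card ≤ r := by
      have := card_le_univ I₀
      rwa [Fintype.card_fin] at this
    have hc3 : S₀.card ≤ W.card + Z.card + n * s := by
      rw [hS₀]
      exact (card_union_le _ _).trans (Nat.add_le_add (card_union_le _ _) hc1)
    rw [hc, ord2]
    omega
  · intro a
    rw [hx']
    rcases a with a | i
    · exact hX0 _
    · exact hm0 _
  · rw [hx', Fintype.sum_sum_type]
    simp only [Sum.elim_inl, Sum.elim_inr]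
    rw [sum_sub S₀ X hXS, hsI m, hX, Finset.sum_comm, Fintype.sum_option, hfn]
    have : ∀ i, ∑ a, f (some i) a = m i * (if i ∈ I₀ then 0 else 1) := by
      intro i
      rw [hfs]
      simp only
      rw [← Finset.mul_sum, hsumy]
    simp only [this]
    rw [add_assoc, ← Finset.sum_add_distrib]
    conv_rhs => rw [← hone]
    congr 1
    refine Finset.sum_congr rfl fun i _ => ?_
    split_ifs <;> ring
  · intro z hz
    refine le_trans ?_ (hmin z hz)
    refine le_trans ?_ hqx
    have e1 : qf (mat vb' ec' p) x' = qf (mat vb ec p) X +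
        ∑ i, (if i ∈ I₀ then p * m i ^ 2 else 0) := by
      rw [← hsI (fun i => p * m i ^ 2), ← qf_sub (mat vb ec p) S₀ X hXS]
      unfold qf
      rw [Fintype.sum_sum_type]
      congr 1
      · refine Finset.sum_congr rfl fun a _ => ?_
        have h3 : ∑ j : {i : Fin r // i ∈ I₀}, x' (Sum.inl a) * x' (Sum.inr j) *
            mat vb' ec' p (Sum.inl a) (Sum.inr j) = 0 := by
          refine Finset.sum_eq_zero fun j _ => ?_
          have : mat vb' ec' p (Sum.inl a) (Sum.inr j) = 0 := by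
            have hE : ec' (Sum.inl a) (Sum.inr j) = 1 := rfl
            unfold mat
            rw [if_neg (by simp), hE, if_neg (by decide), if_neg (by decide)]
          rw [this, mul_zero]
        rw [Fintype.sum_sum_type, h3, add_zero]
        refine Finset.sum_congr rfl fun b _ => ?_
        have h4 : mat vb' ec' p (Sum.inl a) (Sum.inl b) = mat vb ec p a.1 b.1 := by
          unfold mat
          by_cases hab : a = b
          · subst hab
            rw [if_pos rfl, if_pos rfl]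
            rfl
          · rw [if_neg (fun e => hab (Sum.inl.inj e)), if_neg (fun e => hab (Subtype.ext e))]
        rw [h4, hx']
        rfl
      · refine Finset.sum_congr rfl fun i _ => ?_
        have h3 : ∑ b : {a : V // a ∈ S₀}, x' (Sum.inr i) * x' (Sum.inl b) *
            mat vb' ec' p (Sum.inr i) (Sum.inl b) = 0 := by
          refine Finset.sum_eq_zero fun b _ => ?_
          have : mat vb' ec' p (Sum.inr i) (Sum.inl b) = 0 := by
            have hE : ec' (Sum.inr i) (Sum.inl b) = 1 := rfl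
            unfold mat
            rw [if_neg (by simp), hE, if_neg (by decide), if_neg (by decide)]
          rw [this, mul_zero]
        rw [Fintype.sum_sum_type, h3, zero_add, Finset.sum_eq_single i]
        · have : mat vb' ec' p (Sum.inr i) (Sum.inr i) = p := by
            unfold mat
            rw [if_pos rfl]
            simp [vb']
          rw [this, hx']
          simp only [Sum.elim_inr]
          ring
        · intro j _ hji
          have : mat vb' ec' p (Sum.inr i) (Sum.inr j) = 0 := by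
            have hE : ec' (Sum.inr i) (Sum.inr j) = 1 := rfl
            unfold mat
            rw [if_neg (fun e => hji (Sum.inr.inj e).symm), hE, if_neg (by decide),
              if_neg (by decide)]
          rw [this, mul_zero]
        · intro h; exact absurd (mem_univ i) h
    rw [e1, hqX, Fintype.sum_option, Fintype.sum_option, hfn, add_assoc, ← Finset.sum_add_distrib]
    refine add_le_add le_rfl (Finset.sum_le_sum fun i _ => ?_)
    have hxpB : ∀ a, xp (some i) a ≠ 0 → a ∈ Bk := fun a ha => hCB i (hxpC i a ha)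
    have hmi : ∑ a, xp (some i) a = m i := by rw [hm]
    rw [hform _ hxpB, hmi, hfs, qf_smul]
    rcases hyC i with ⟨hFi, hq⟩ | ⟨hys, hq⟩
    · have hi : i ∈ I₀ := (hI₀m i).2 hFi
      have hyz : y i = fun _ => 0 := by
        funext a
        by_contra h
        have := hyF i a h
        rw [hFi] at this
        exact absurd this (notMem_empty a)
      have hq0 : qf (mat vb ec p) (y i) = 0 := by
        rw [hyz]; unfold qf; simp
      rw [if_pos hi, hq0]
      have := mul_nonneg hp0.le (hq (xp (some i)) (hxp0 _) (hxpC i))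
      linarith
    · have hi : i ∉ I₀ := by
        intro h
        have h3 := hsumy i
        rw [if_pos h, hys] at h3
        exact absurd h3 one_ne_zero
      rw [if_neg hi, add_zero, hform (y i) (fun a ha => hCB i (hFC i (hyF i a ha))), hys]
      have h3 := mul_le_mul_of_nonneg_left (hq (xp (some i)) (hxp0 _) (hxpC i)) hp0.le
      rw [hmi] at h3
      nlinarith

end Pool.Agent.V8H97.CRG
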