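import Mathlib
import Pool.Agent.V8H97.CRG.Red3

/-!
# MP_076b30_co: coloured regularity graphs of bounded order

For `p` in a compact subinterval of `(1/4, 3/4)` the edit distance function of `Forb(H)` is computed by
coloured regularity graphs whose order is bounded in terms of `|V(H)|` and the interval. Hence Q1 holds
for all `H` whose edit distance function has a maximiser in `(1/4, 3/4)`.
-/

open Finset
open Pool.Agent.V8H97.CRG

namespace Pool.Agent.V8H97.CRG.Half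

/-- `g_K(p)`; `vb i = true` means that the vertex `i` is black; edge colours: 0 white, 1 gray,
2 black -/
noncomputable def gval (k : ℕ) (vb : Fin k → Bool) (ec : Fin k → Fin k → Fin 3) (p : ℝ) : ℝ :=
  sInf {y : ℝ | ∃ x : Fin k → ℝ, (∀ i, 0 ≤ x i) ∧ ∑ i, x i = 1 ∧
    y = ∑ i, ∑ j, x i * x j *
      (if i = j then (if vb i then 1 - p else p)
       else (if ec i j = 0 then p else if ec i j = 2 then 1 - p else 0))}

/-- there is a coloured homomorphism from `H` to `K` -/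
def CHom {n : ℕ} (H : SimpleGraph (Fin n)) (k : ℕ) (vb : Fin k → Bool)
    (ec : Fin k → Fin k → Fin 3) : Prop :=
  ∃ φ : Fin n → Fin k, ∀ u v : Fin n, u ≠ v →
    (φ u = φ v → (H.Adj u v → vb (φ u) = true) ∧ (¬ H.Adj u v → vb (φ u) = false)) ∧
    (φ u ≠ φ v → (H.Adj u v → ec (φ u) (φ v) ≠ 0) ∧ (¬ H.Adj u v → ec (φ u) (φ v) ≠ 2))

/-- the infimum of `g_K(p)` over all `K` in `K(H)` -/
noncomputable def ed {n : ℕ} (H : SimpleGraph (Fin n)) (p : ℝ) : ℝ :=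
  sInf {e : ℝ | ∃ (k : ℕ) (vb : Fin k → Bool) (ec : Fin k → Fin k → Fin 3),
    0 < k ∧ (∀ i j, ec i j = ec j i) ∧ ¬ CHom H k vb ec ∧ e = gval k vb ec p}

/-- the infimum of `g_K(p)` over all `K` in `K(H)` of order at most `N` -/
noncomputable def edB {n : ℕ} (H : SimpleGraph (Fin n)) (N : ℕ) (p : ℝ) : ℝ :=
  sInf {e : ℝ | ∃ (k : ℕ) (vb : Fin k → Bool) (ec : Fin k → Fin k → Fin 3),
    0 < k ∧ k ≤ N ∧ (∀ i j, ec i j = ec j i) ∧ ¬ CHom H k vb ec ∧ e = gval k vb ec p}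

lemma gval_eq (k : ℕ) (vb : Fin k → Bool) (ec : Fin k → Fin k → Fin 3) (p : ℝ) :
    gval k vb ec p = sInf {y : ℝ | ∃ x : Fin k → ℝ, Smp x ∧ y = qf (mat vb ec p) x} := by
  unfold gval qf mat Smp
  congr 1
  ext y
  constructor
  · rintro ⟨x, h1, h2, h3⟩
    exact ⟨x, ⟨h1, h2⟩, h3⟩
  · rintro ⟨x, ⟨h1, h2⟩, h3⟩
    exact ⟨x, h1, h2, h3⟩

lemma qf_nonneg {V : Type} [Fintype V] [DecidableEq V] (vb : V → Bool) (ec : V → V → Fin 3)
    (p : ℝ) (h0 : 0 ≤ p) (h1 : p ≤ 1) (x : V → ℝ) (hx : Smp x) :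
    0 ≤ qf (mat vb ec p) x := by
  unfold qf
  refine Finset.sum_nonneg fun i _ => Finset.sum_nonneg fun j _ => ?_
  exact mul_nonneg (mul_nonneg (hx.1 i) (hx.1 j)) (mat_nonneg vb ec p h0 h1 i j)

lemma gval_le (k : ℕ) (vb : Fin k → Bool) (ec : Fin k → Fin k → Fin 3) (p : ℝ) (h0 : 0 ≤ p)
    (h1 : p ≤ 1) (x : Fin k → ℝ) (hx : Smp x) : gval k vb ec p ≤ qf (mat vb ec p) x := by
  rw [gval_eq]
  refine csInf_le ⟨0, ?_⟩ ⟨x, hx, rfl⟩
  rintro y ⟨z, hz, rfl⟩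
  exact qf_nonneg vb ec p h0 h1 z hz

lemma smp_exists (k : ℕ) (hk : 0 < k) : ∃ x : Fin k → ℝ, Smp x := by
  haveI : Nonempty (Fin k) := ⟨⟨0, hk⟩⟩
  obtain ⟨x, hx, -⟩ := exists_min (V := Fin k) (fun _ _ => 0)
  exact ⟨x, hx⟩

lemma le_gval (k : ℕ) (hk : 0 < k) (vb : Fin k → Bool) (ec : Fin k → Fin k → Fin 3) (p c : ℝ)
    (h : ∀ x, Smp x → c ≤ qf (mat vb ec p) x) : c ≤ gval k vb ec p := by
  rw [gval_eq]
  obtain ⟨x, hx⟩ := smp_exists k hk
  refine le_csInf ⟨_, x, hx, rfl⟩ ?_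
  rintro y ⟨z, hz, rfl⟩
  exact h z hz

lemma gval_nonneg (k : ℕ) (hk : 0 < k) (vb : Fin k → Bool) (ec : Fin k → Fin k → Fin 3) (p : ℝ)
    (h0 : 0 ≤ p) (h1 : p ≤ 1) : 0 ≤ gval k vb ec p :=
  le_gval k hk vb ec p 0 fun x hx => qf_nonneg vb ec p h0 h1 x hx

/-- domination by a graph of bounded order, lower half -/
lemma dom_low {n : ℕ} (H : SimpleGraph (Fin n)) (t : ℕ) (δ : ℝ) (hδ : 0 < δ)
    (ht : 9 ≤ 8 * δ * t) (p : ℝ) (hp1 : 1 / 4 + δ ≤ p) (hp2 : p ≤ 1 / 2)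
    (k : ℕ) (hk : 0 < k) (vb : Fin k → Bool) (ec : Fin k → Fin k → Fin 3)
    (hec : ∀ i j, ec i j = ec j i) (hnot : ¬ CHom H k vb ec) :
    ∃ (k' : ℕ) (vb' : Fin k' → Bool) (ec' : Fin k' → Fin k' → Fin 3), 0 < k' ∧ k' ≤ ord2 n t t ∧
      (∀ i j, ec' i j = ec' j i) ∧ ¬ CHom H k' vb' ec' ∧ gval k' vb' ec' p ≤ gval k vb ec p := by
  haveI : Nonempty (Fin k) := ⟨⟨0, hk⟩⟩
  obtain ⟨V', _, _, vb', ec', x', hcard, hec', hnot', hx', hle⟩ :=
    reduce2 H t t (8 * δ) (by linarith) p (by linarith) hp2 (by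
      rw [div_le_iff₀ (by linarith)]
      have h1 : δ ≤ 1 / 4 := by linarith
      nlinarith [mul_nonneg (show (0 : ℝ) ≤ 4 - 8 * δ by linarith)
        (show (0 : ℝ) ≤ p - (1 / 4 + δ) by linarith), mul_nonneg hδ.le
        (show (0 : ℝ) ≤ 2 - 8 * δ by linarith)]) ht (by linarith) vb ec hec hnot
  let e := Fintype.equivFin V'
  have hS : Smp (fun i => x' (e.symm i)) := by
    refine ⟨fun i => hx'.1 _, ?_⟩
    rw [Equiv.sum_comp e.symm x']
    exact hx'.2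
  have hq : qf (mat (fun i => vb' (e.symm i)) (fun i j => ec' (e.symm i) (e.symm j)) p)
      (fun i => x' (e.symm i)) = qf (mat vb' ec' p) x' := by
    unfold qf
    rw [← Equiv.sum_comp e.symm (fun a => ∑ b, x' a * x' b * mat vb' ec' p a b)]
    refine Finset.sum_congr rfl fun i _ => ?_
    rw [← Equiv.sum_comp e.symm (fun b => x' (e.symm i) * x' b * mat vb' ec' p (e.symm i) b)]
    refine Finset.sum_congr rfl fun j _ => ?_
    unfold mat
    simp only [EmbeddingLike.apply_eq_iff_eq]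
  refine ⟨Fintype.card V', fun i => vb' (e.symm i), fun i j => ec' (e.symm i) (e.symm j), ?_,
    hcard, fun i j => hec' _ _, ?_, ?_⟩
  · rw [Fintype.card_pos_iff]
    by_contra hcon
    rw [not_nonempty_iff] at hcon
    have := hx'.2
    simp at this
  · rintro ⟨φ, hφ⟩
    refine hnot' ⟨fun u => e.symm (φ u), fun u v huv => ?_⟩
    have h := hφ u v huv
    exact ⟨fun h' => h.1 (e.symm.injective h'), fun h' => h.2 (fun e' => h' (congrArg e.symm e'))⟩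
  · refine le_trans (gval_le _ _ _ p (by linarith) (by linarith) _ hS) ?_
    rw [hq]
    exact le_gval k hk vb ec p _ fun x hx => hle x hx

/-- complementation of colours -/
lemma mat_compl {V : Type} [DecidableEq V] (vb : V → Bool) (ec : V → V → Fin 3) (p : ℝ)
    (i j : V) : mat (fun a => !vb a) (fun a b => (ec a b).rev) (1 - p) i j = mat vb ec p i j := by
  unfold mat
  by_cases hij : i = j
  · rw [if_pos hij, if_pos hij]
    cases h : vb i <;> simp [h]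
  · rw [if_neg hij, if_neg hij]
    have h0 : ∀ c : Fin 3, c.rev = 0 ↔ c = 2 := by decide
    have h2 : ∀ c : Fin 3, c.rev = 2 ↔ c = 0 := by decide
    simp only [h0, h2]
    have : ∀ c : Fin 3, (c = 0 ∨ c = 1 ∨ c = 2) := by decide
    rcases this (ec i j) with h | h | h <;> rw [h] <;> simp

lemma gval_compl (k : ℕ) (vb : Fin k → Bool) (ec : Fin k → Fin k → Fin 3) (p : ℝ) :
    gval k (fun a => !vb a) (fun a b => (ec a b).rev) (1 - p) = gval k vb ec p := by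
  rw [gval_eq, gval_eq]
  have : mat (fun a => !vb a) (fun a b => (ec a b).rev) (1 - p) = mat vb ec p := by
    funext i j
    exact mat_compl vb ec p i j
  rw [this]

lemma chom_compl {n : ℕ} (H : SimpleGraph (Fin n)) (k : ℕ) (vb : Fin k → Bool)
    (ec : Fin k → Fin k → Fin 3) (h : CHom Hᶜ k (fun a => !vb a) (fun a b => (ec a b).rev)) :
    CHom H k vb ec := by
  obtain ⟨φ, hφ⟩ := h
  refine ⟨φ, fun u v huv => ?_⟩
  obtain ⟨h1, h2⟩ := hφ u v huv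
  have hadj : Hᶜ.Adj u v ↔ ¬ H.Adj u v := by
    rw [SimpleGraph.compl_adj]
    exact ⟨fun h => h.2, fun h => ⟨huv, h⟩⟩
  have h0 : ∀ c : Fin 3, c.rev = 0 ↔ c = 2 := by decide
  have h2' : ∀ c : Fin 3, c.rev = 2 ↔ c = 0 := by decide
  rw [hadj] at h1 h2
  refine ⟨fun he => ⟨fun ha => ?_, fun ha => ?_⟩, fun he => ⟨fun ha => ?_, fun ha => ?_⟩⟩
  · have := (h1 he).2 (not_not.2 ha)
    simpa using this
  · have := (h1 he).1 ha
    simpa using this
  · have := (h2 he).2 (not_not.2 ha)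
    rw [ne_eq, h2'] at this
    exact this
  · have := (h2 he).1 ha
    rw [ne_eq, h0] at this
    exact this

/-- domination by a graph of bounded order -/
lemma dom (n : ℕ) (δ : ℝ) (hδ : 0 < δ) : ∃ N : ℕ, ∀ H : SimpleGraph (Fin n), ∀ p : ℝ,
    1 / 4 + δ ≤ p → p ≤ 3 / 4 - δ → ∀ (k : ℕ) (vb : Fin k → Bool) (ec : Fin k → Fin k → Fin 3),
      0 < k → (∀ i j, ec i j = ec j i) → ¬ CHom H k vb ec →
      ∃ (k' : ℕ) (vb' : Fin k' → Bool) (ec' : Fin k' → Fin k' → Fin 3), 0 < k' ∧ k' ≤ N ∧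
        (∀ i j, ec' i j = ec' j i) ∧ ¬ CHom H k' vb' ec' ∧
        gval k' vb' ec' p ≤ gval k vb ec p := by
  obtain ⟨t, ht⟩ := exists_nat_gt (9 / (8 * δ))
  have ht9 : 9 ≤ 8 * δ * t := by
    rw [div_lt_iff₀ (by linarith)] at ht
    linarith
  refine ⟨ord2 n t t, fun H p hp1 hp2 k vb ec hk hec hnot => ?_⟩
  rcases le_total p (1 / 2) with hp | hp
  · exact dom_low H t δ hδ ht9 p hp1 hp k hk vb ec hec hnot
  · obtain ⟨k', vb', ec', h1, h2, h3, h4, h5⟩ := dom_low Hᶜ t δ hδ ht9 (1 - p) (by linarith)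
      (by linarith) k hk (fun a => !vb a)
      (fun a b => (ec a b).rev) (fun i j => by rw [hec]) (fun h => hnot (chom_compl H k vb ec h))
    refine ⟨k', fun a => !vb' a, fun a b => (ec' a b).rev, h1, h2, fun i j => congrArg Fin.rev (h3 i j), ?_, ?_⟩
    · intro h
      apply h4
      apply chom_compl
      rw [compl_compl]
      exact h
    · rw [gval_compl] at h5
      have := gval_compl k' vb' ec' (1 - p)
      rw [sub_sub_cancel] at this
      rw [this]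
      exact h5

lemma edB_le {n : ℕ} (H : SimpleGraph (Fin n)) (N : ℕ) (p : ℝ) (h0 : 0 ≤ p) (h1 : p ≤ 1)
    (k : ℕ) (vb : Fin k → Bool) (ec : Fin k → Fin k → Fin 3) (hk : 0 < k) (hkN : k ≤ N)
    (hec : ∀ i j, ec i j = ec j i) (hnot : ¬ CHom H k vb ec) : edB H N p ≤ gval k vb ec p := by
  refine csInf_le ⟨0, ?_⟩ ⟨k, vb, ec, hk, hkN, hec, hnot, rfl⟩
  rintro e ⟨k', vb', ec', hk', -, -, -, rfl⟩
  exact gval_nonneg k' hk' vb' ec' p h0 h1

lemma ed_le {n : ℕ} (H : SimpleGraph (Fin n)) (p : ℝ) (h0 : 0 ≤ p) (h1 : p ≤ 1)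
    (k : ℕ) (vb : Fin k → Bool) (ec : Fin k → Fin k → Fin 3) (hk : 0 < k)
    (hec : ∀ i j, ec i j = ec j i) (hnot : ¬ CHom H k vb ec) : ed H p ≤ gval k vb ec p := by
  refine csInf_le ⟨0, ?_⟩ ⟨k, vb, ec, hk, hec, hnot, rfl⟩
  rintro e ⟨k', vb', ec', hk', -, -, rfl⟩
  exact gval_nonneg k' hk' vb' ec' p h0 h1

/-- (1) bounded orders on compact subintervals, also for all larger bounds -/
lemma one (n : ℕ) (δ : ℝ) (hδ : 0 < δ) : ∃ N : ℕ, ∀ N' ≥ N, ∀ H : SimpleGraph (Fin n), ∀ p : ℝ,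
    1 / 4 + δ ≤ p → p ≤ 3 / 4 - δ → edB H N' p = ed H p := by
  obtain ⟨N, hN⟩ := dom n δ hδ
  refine ⟨N, fun N' hN' H p hp1 hp2 => ?_⟩
  have h0 : 0 ≤ p := by linarith
  have h1 : p ≤ 1 := by linarith
  by_cases hne : ∃ (k : ℕ) (vb : Fin k → Bool) (ec : Fin k → Fin k → Fin 3),
    0 < k ∧ (∀ i j, ec i j = ec j i) ∧ ¬ CHom H k vb ec
  · obtain ⟨k, vb, ec, hk, hec, hnot⟩ := hne
    apply le_antisymm
    · refine le_csInf ⟨_, k, vb, ec, hk, hec, hnot, rfl⟩ ?_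
      rintro e ⟨k₁, vb₁, ec₁, hk₁, hec₁, hnot₁, rfl⟩
      obtain ⟨k', vb', ec', g1, g2, g3, g4, g5⟩ := hN H p hp1 hp2 k₁ vb₁ ec₁ hk₁ hec₁ hnot₁
      exact (edB_le H N' p h0 h1 k' vb' ec' g1 (g2.trans hN') g3 g4).trans g5
    · obtain ⟨k', vb', ec', g1, g2, g3, g4, g5⟩ := hN H p hp1 hp2 k vb ec hk hec hnot
      refine le_csInf ⟨_, k', vb', ec', g1, g2.trans hN', g3, g4, rfl⟩ ?_
      rintro e ⟨k₁, vb₁, ec₁, hk₁, -, hec₁, hnot₁, rfl⟩
      exact ed_le H p h0 h1 k₁ vb₁ ec₁ hk₁ hec₁ hnot₁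
  · unfold edB ed
    congr 1
    ext e
    constructor
    · rintro ⟨k, vb, ec, hk, -, hec, hnot, -⟩
      exact absurd ⟨k, vb, ec, hk, hec, hnot⟩ hne
    · rintro ⟨k, vb, ec, hk, hec, hnot, -⟩
      exact absurd ⟨k, vb, ec, hk, hec, hnot⟩ hne

lemma qf_affine {V : Type} [Fintype V] [DecidableEq V] (vb : V → Bool) (ec : V → V → Fin 3)
    (p q s : ℝ) (x : V → ℝ) : qf (mat vb ec ((1 - s) * p + s * q)) x =
      (1 - s) * qf (mat vb ec p) x + s * qf (mat vb ec q) x := by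
  unfold qf
  simp only [Finset.mul_sum, ← Finset.sum_add_distrib]
  refine Finset.sum_congr rfl fun i _ => Finset.sum_congr rfl fun j _ => ?_
  unfold mat
  split_ifs <;> ring

/-- concavity -/
lemma concave {n : ℕ} (H : SimpleGraph (Fin n)) (N : ℕ) (p q s : ℝ) (hp : p ∈ Set.Icc (0 : ℝ) 1)
    (hq : q ∈ Set.Icc (0 : ℝ) 1) (hs0 : 0 ≤ s) (hs1 : s ≤ 1) :
    (1 - s) * edB H N p + s * edB H N q ≤ edB H N ((1 - s) * p + s * q) := by
  by_cases hne : ∃ (k : ℕ) (vb : Fin k → Bool) (ec : Fin k → Fin k → Fin 3),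
    0 < k ∧ k ≤ N ∧ (∀ i j, ec i j = ec j i) ∧ ¬ CHom H k vb ec
  · obtain ⟨k, vb, ec, hk, hkN, hec, hnot⟩ := hne
    refine le_csInf ⟨_, k, vb, ec, hk, hkN, hec, hnot, rfl⟩ ?_
    rintro e ⟨k, vb, ec, hk, hkN, hec, hnot, rfl⟩
    refine le_gval k hk vb ec _ _ fun x hx => ?_
    rw [qf_affine]
    have g1 := (edB_le H N p hp.1 hp.2 k vb ec hk hkN hec hnot).trans
      (gval_le k vb ec p hp.1 hp.2 x hx)
    have g2 := (edB_le H N q hq.1 hq.2 k vb ec hk hkN hec hnot).trans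
      (gval_le k vb ec q hq.1 hq.2 x hx)
    exact add_le_add (mul_le_mul_of_nonneg_left g1 (by linarith))
      (mul_le_mul_of_nonneg_left g2 hs0)
  · have : ∀ p, edB H N p = 0 := by
      intro p
      unfold edB
      have : {e : ℝ | ∃ (k : ℕ) (vb : Fin k → Bool) (ec : Fin k → Fin k → Fin 3),
          0 < k ∧ k ≤ N ∧ (∀ i j, ec i j = ec j i) ∧ ¬ CHom H k vb ec ∧
          e = gval k vb ec p} = ∅ := by
        ext e
        simp only [Set.mem_setOf_eq, Set.mem_empty_iff_false, iff_false]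
        rintro ⟨k, vb, ec, hk, hkN, hec, hnot, -⟩
        exact hne ⟨k, vb, ec, hk, hkN, hec, hnot⟩
      rw [this, Real.sInf_empty]
    rw [this, this, this]
    simp

/-- (2) uniform form of Q1 for maximisers in a compact subinterval -/
lemma two (n : ℕ) (δ : ℝ) (hδ : 0 < δ) : ∃ N : ℕ, ∀ H : SimpleGraph (Fin n),
    (∃ p : ℝ, 1 / 4 + δ ≤ p ∧ p ≤ 3 / 4 - δ ∧ ∀ q ∈ Set.Icc (0 : ℝ) 1, ed H q ≤ ed H p) →
    ∀ N' ≥ N, sSup (edB H N' '' Set.Icc 0 1) = sSup (ed H '' Set.Icc 0 1) := by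
  obtain ⟨N, hN⟩ := one n (δ / 2) (by linarith)
  refine ⟨N, ?_⟩
  rintro H ⟨p, hp1, hp2, hmax⟩ N' hN'
  have hp : p ∈ Set.Icc (0 : ℝ) 1 := ⟨by linarith, by linarith⟩
  have heq : edB H N' p = ed H p := hN N' hN' H p (by linarith) (by linarith)
  have hA : IsGreatest (ed H '' Set.Icc 0 1) (ed H p) := by
    refine ⟨⟨p, hp, rfl⟩, ?_⟩
    rintro _ ⟨q, hq, rfl⟩
    exact hmax q hq
  have hB : IsGreatest (edB H N' '' Set.Icc 0 1) (ed H p) := by
    refine ⟨⟨p, hp, heq⟩, ?_⟩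
    rintro _ ⟨q, hq, rfl⟩
    by_contra hlt
    push Not at hlt
    obtain ⟨s, hs⟩ : ∃ s, s = min (δ / 2) 1 := ⟨_, rfl⟩
    have hs0 : 0 < s := by rw [hs]; exact lt_min (by linarith) one_pos
    have hs1 : s ≤ 1 := by rw [hs]; exact min_le_right _ _
    have hs2 : s ≤ δ / 2 := by rw [hs]; exact min_le_left _ _
    have h1 := concave H N' p q s hp hq hs0.le hs1
    have hm1 : (1 - s) * p + s * q - p = s * (q - p) := by ring
    have hm2 : s * (q - p) ≤ s := by nlinarith [hq.2, hp.1]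
    have hm3 : - s ≤ s * (q - p) := by nlinarith [hq.1, hp.2]
    have h2 := hN N' hN' H ((1 - s) * p + s * q) (by linarith) (by linarith)
    have h3 := hmax ((1 - s) * p + s * q) ⟨by nlinarith [hp.1, hq.1], by nlinarith [hp.2, hq.2]⟩
    rw [heq] at h1
    rw [h2] at h1
    nlinarith
  rw [hA.csSup_eq, hB.csSup_eq]

end Pool.Agent.V8H97.CRG.Half
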